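import Pool.Agent.H40.SP.Geo

/-!
# Unit ball graphs: caps
-/

namespace Pool.Agent.H40.SP

open Finset

open Classical

section moment

variable {V : Type*}

/-- the second moment of the inner products of vectors in `ℝ ^ d` -/
theorem second_moment {d : ℕ} (y : V → EuclideanSpace ℝ (Fin d)) (Q : Finset V) :
    (∑ p ∈ Q, ‖y p‖ ^ 2) ^ 2 ≤ d * ∑ p ∈ Q, ∑ q ∈ Q, (inner ℝ (y p) (y q)) ^ 2 := by
  have h1 : ∀ p q, inner ℝ (y p) (y q) = ∑ a, y p a * y q a := by
    intro p q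
    rw [PiLp.inner_apply]
    refine sum_congr rfl (fun a _ => ?_)
    simp [mul_comm]
  have h2 : ∀ p, ‖y p‖ ^ 2 = ∑ a, (y p a) ^ 2 := by
    intro p
    rw [← real_inner_self_eq_norm_sq, h1]
    exact sum_congr rfl (fun a _ => by ring)
  have h3 : ∑ p ∈ Q, ∑ q ∈ Q, (inner ℝ (y p) (y q)) ^ 2 =
      ∑ a, ∑ b, (∑ p ∈ Q, y p a * y p b) ^ 2 := by
    have e1 : ∀ p q, (inner ℝ (y p) (y q)) ^ 2 = ∑ a, ∑ b, (y p a * y p b) * (y q a * y q b) := by
      intro p q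
      rw [h1, sq, sum_mul_sum]
      refine sum_congr rfl (fun a _ => sum_congr rfl (fun b _ => ?_))
      ring
    have e2 : ∀ a b, (∑ p ∈ Q, y p a * y p b) ^ 2 =
        ∑ p ∈ Q, ∑ q ∈ Q, (y p a * y p b) * (y q a * y q b) := by
      intro a b
      rw [sq, sum_mul_sum]
    simp_rw [e1, e2]
    calc ∑ p ∈ Q, ∑ q ∈ Q, ∑ a, ∑ b, (y p a * y p b) * (y q a * y q b)
        = ∑ p ∈ Q, ∑ a, ∑ q ∈ Q, ∑ b, (y p a * y p b) * (y q a * y q b) :=
          sum_congr rfl (fun p _ => sum_comm)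
      _ = ∑ a, ∑ p ∈ Q, ∑ q ∈ Q, ∑ b, (y p a * y p b) * (y q a * y q b) := sum_comm
      _ = ∑ a, ∑ p ∈ Q, ∑ b, ∑ q ∈ Q, (y p a * y p b) * (y q a * y q b) :=
          sum_congr rfl (fun a _ => sum_congr rfl (fun p _ => sum_comm))
      _ = ∑ a, ∑ b, ∑ p ∈ Q, ∑ q ∈ Q, (y p a * y p b) * (y q a * y q b) :=
          sum_congr rfl (fun a _ => sum_comm)
  have h4 : ∑ p ∈ Q, ‖y p‖ ^ 2 = ∑ a, ∑ p ∈ Q, y p a * y p a := by
    simp_rw [h2]
    rw [sum_comm]
    exact sum_congr rfl (fun a _ => sum_congr rfl (fun p _ => by ring))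
  rw [h3, h4]
  have h5 : (∑ a : Fin d, ∑ p ∈ Q, y p a * y p a) ^ 2 ≤
      (univ : Finset (Fin d)).card * ∑ a, (∑ p ∈ Q, y p a * y p a) ^ 2 := sq_sum_le_card_mul_sum_sq
  rw [card_univ, Fintype.card_fin] at h5
  refine h5.trans (mul_le_mul_of_nonneg_left ?_ (Nat.cast_nonneg d))
  refine sum_le_sum (fun a _ => ?_)
  exact single_le_sum (f := fun b => (∑ p ∈ Q, y p a * y p b) ^ 2) (fun b _ => sq_nonneg _)
    (mem_univ a)

/-- layering -/
theorem layer {ι : Type*} (P : Finset ι) (z : ι → ℝ) (D J : ℕ) (hJ : 1 ≤ J) (hD : 6 * D ≤ 4 ^ J)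
    (hz : ∀ p ∈ P, z p ≤ D) (hP : P.Nonempty) (hsum : (3 / 2 : ℝ) * P.card ≤ ∑ p ∈ P, z p) :
    ∃ j, 1 ≤ j ∧ j ≤ J ∧ (P.card : ℝ) ≤ 4 ^ j * (P.filter (fun p => (j : ℝ) ≤ z p)).card := by
  by_contra hcon
  push Not at hcon
  have hPpos : (0 : ℝ) < P.card := by exact_mod_cast hP.card_pos
  set c : ℕ → ℝ := fun j => (P.filter (fun p => (j : ℝ) ≤ z p)).card with hc
  have h1 : ∀ p ∈ P, z p ≤ 1 + ∑ j ∈ Icc 1 D, (if (j : ℝ) ≤ z p then (1 : ℝ) else 0) := by
    intro p hp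
    have h2 := hz p hp
    by_cases h0 : z p ≤ 1
    · have : 0 ≤ ∑ j ∈ Icc 1 D, (if (j : ℝ) ≤ z p then (1 : ℝ) else 0) :=
        sum_nonneg (fun j _ => by split_ifs <;> norm_num)
      linarith
    · push Not at h0
      have hfl : ⌊z p⌋₊ ≤ D := by
        have := Nat.floor_le_floor h2
        rwa [Nat.floor_natCast] at this
      have h3 : (⌊z p⌋₊ : ℝ) ≤ ∑ j ∈ Icc 1 D, (if (j : ℝ) ≤ z p then (1 : ℝ) else 0) := by
        rw [sum_boole]
        have h4 : Icc 1 ⌊z p⌋₊ ⊆ (Icc 1 D).filter (fun j => (j : ℝ) ≤ z p) := by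
          intro j hj
          rw [mem_Icc] at hj
          refine mem_filter.2 ⟨mem_Icc.2 ⟨hj.1, hj.2.trans hfl⟩, ?_⟩
          exact (Nat.le_floor_iff (by linarith)).1 hj.2
        have h5 := card_le_card h4
        rw [Nat.card_Icc, Nat.add_sub_cancel] at h5
        exact_mod_cast h5
      have h6 := Nat.lt_floor_add_one (z p)
      linarith
  have h2 : ∑ p ∈ P, z p ≤ P.card + ∑ j ∈ Icc 1 D, c j := by
    refine (sum_le_sum h1).trans ?_
    rw [sum_add_distrib, sum_const, nsmul_eq_mul, mul_one, sum_comm]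
    refine add_le_add le_rfl (le_of_eq (sum_congr rfl (fun j _ => ?_)))
    rw [sum_boole]
  have h3 : ∀ j, 1 ≤ j → j ≤ J → c j ≤ P.card / 4 ^ j := by
    intro j hj1 hj2
    have := hcon j hj1 hj2
    rw [le_div_iff₀ (by positivity), mul_comm]
    exact this.le
  have hmono : ∀ j, J ≤ j → c j ≤ P.card / 4 ^ J := by
    intro j hj
    refine le_trans ?_ (h3 J hJ le_rfl)
    simp only [hc]
    have : (P.filter (fun p => (j : ℝ) ≤ z p)).card ≤ (P.filter (fun p => (J : ℝ) ≤ z p)).card := by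
      refine card_le_card (fun p hp => ?_)
      rw [mem_filter] at hp ⊢
      exact ⟨hp.1, le_trans (by exact_mod_cast hj) hp.2⟩
    exact_mod_cast this
  have hgeo : ∀ n : ℕ, ∑ j ∈ Icc 1 n, (1 / 4 : ℝ) ^ j ≤ 1 / 3 - 1 / 3 * (1 / 4) ^ n := by
    intro n
    induction n with
    | zero => simp
    | succ n ih =>
      rw [sum_Icc_succ_top (by omega)]
      rw [pow_succ (1 / 4 : ℝ) n]
      linarith
  have h4 : ∑ j ∈ Icc 1 D, c j ≤ ∑ j ∈ Icc 1 D, (P.card * (1 / 4 : ℝ) ^ j + P.card / 4 ^ J) := by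
    refine sum_le_sum (fun j hj => ?_)
    rw [mem_Icc] at hj
    have e1 : (P.card : ℝ) * (1 / 4) ^ j = P.card / 4 ^ j := by
      rw [one_div, inv_pow, div_eq_mul_inv]
    rw [e1]
    have e2 : (0 : ℝ) ≤ P.card / 4 ^ J := by positivity
    have e3 : (0 : ℝ) ≤ P.card / 4 ^ j := by positivity
    rcases le_total j J with h | h
    · linarith [h3 j hj.1 h]
    · linarith [hmono j h]
  have hstrict : c J < P.card / 4 ^ J := by
    have := hcon J hJ le_rfl
    rw [lt_div_iff₀ (by positivity), mul_comm]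
    exact this
  rw [sum_add_distrib, ← mul_sum, sum_const, Nat.card_Icc, Nat.add_sub_cancel, nsmul_eq_mul] at h4
  have h5 := hgeo D
  have h6 : (D : ℝ) * (P.card / 4 ^ J) ≤ P.card / 6 := by
    have h7 : (6 : ℝ) * D ≤ 4 ^ J := by exact_mod_cast hD
    rw [← mul_div_assoc, div_le_div_iff₀ (by positivity) (by norm_num)]
    nlinarith
  have h7 : 0 < (1 / 3 : ℝ) * (1 / 4) ^ D := by positivity
  nlinarith [mul_le_mul_of_nonneg_left h5 hPpos.le, mul_pos hPpos h7]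

end moment

theorem exp_num1 : Real.exp (-(3 / 4 : ℝ)) ≤ 1 / 2 := by
  have h1 : (2 : ℝ) ≤ Real.exp (3 / 4) := by
    have := Real.quadratic_le_exp_of_nonneg (show (0 : ℝ) ≤ 3 / 4 by norm_num)
    linarith
  rw [Real.exp_neg, one_div]
  exact inv_anti₀ (by norm_num) h1

theorem exp_num2 (j : ℕ) (hj : 1 ≤ j) : Real.exp (-(3 * (j : ℝ))) ≤ 1 / 4 ^ (j + 1) := by
  have h1 : (16 : ℝ) ≤ Real.exp 3 := by
    have h2 := Real.exp_one_gt_d9
    have h3 : Real.exp 3 = Real.exp 1 ^ 3 := by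
      rw [← Real.exp_nat_mul]
      norm_num
    rw [h3]
    nlinarith [pow_le_pow_left₀ (by norm_num : (0 : ℝ) ≤ 2.7182818283) h2.le 3]
  have h2 : (4 : ℝ) ^ (j + 1) ≤ Real.exp (3 * (j : ℝ)) := by
    have h3 : Real.exp (3 * (j : ℝ)) = Real.exp 3 ^ j := by
      rw [← Real.exp_nat_mul]
      ring_nf
    rw [h3]
    calc (4 : ℝ) ^ (j + 1) ≤ 4 ^ (2 * j) := pow_le_pow_right₀ (by norm_num) (by omega)
      _ = 16 ^ j := by rw [pow_mul]; norm_num
      _ ≤ _ := pow_le_pow_left₀ (by norm_num) h1 j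
  rw [Real.exp_neg, one_div]
  exact inv_anti₀ (by positivity) h2

/-- one cap -/
theorem cap {V : Type*} {d : ℕ} (hd : 1 ≤ d) (x : V → EuclideanSpace ℝ (Fin d)) (Q : Finset V)
    (hQ : Q.Nonempty) (c : EuclideanSpace ℝ (Fin d)) (ρ : ℝ) (hρ : 1 / 4 ≤ ρ)
    (J : ℕ) (hJ : 1 ≤ J) (hdJ : 12 * d ≤ 4 ^ J) (hb : ∀ v ∈ Q, ‖x v - c‖ ^ 2 ≤ ρ) :
    ∃ Q' ⊆ Q, ∃ (c' : EuclideanSpace ℝ (Fin d)) (ρ' : ℝ), (∀ v ∈ Q', ‖x v - c'‖ ^ 2 ≤ ρ') ∧
      1 / (32 * (d : ℝ)) ≤ ρ - ρ' ∧ ρ - ρ' ≤ ρ * (J / (2 * (d : ℝ))) ∧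
      Q.card * Real.exp (-(24 * d * (ρ - ρ'))) ≤ Q'.card := by
  have hd0 : (0 : ℝ) < d := by exact_mod_cast hd
  have hd1 : (1 : ℝ) ≤ d := by exact_mod_cast hd
  have hρ0 : 0 < ρ := by linarith
  have hJ1 : (1 : ℝ) ≤ J := by exact_mod_cast hJ
  set ρ₁ : ℝ := ρ * (1 - 1 / (8 * (d : ℝ))) with hρ₁
  set A := Q.filter (fun v => ‖x v - c‖ ^ 2 ≤ ρ₁) with hA
  set B := Q.filter (fun v => ¬ ‖x v - c‖ ^ 2 ≤ ρ₁) with hB
  have hAB : (A.card : ℝ) + B.card = Q.card := by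
    exact_mod_cast card_filter_add_card_filter_not (s := Q) _
  have hQpos : (0 : ℝ) < Q.card := by exact_mod_cast hQ.card_pos
  by_cases hcase : (Q.card : ℝ) ≤ 2 * A.card
  · refine ⟨A, filter_subset _ _, c, ρ₁, fun v hv => (mem_filter.1 hv).2, ?_, ?_, ?_⟩
    · have : ρ - ρ₁ = ρ / (8 * d) := by
        rw [hρ₁]; field_simp; ring
      rw [this, div_le_div_iff₀ (by positivity) (by positivity)]
      nlinarith
    · have : ρ - ρ₁ = ρ * (1 / (8 * d)) := by
        rw [hρ₁]; ring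
      rw [this]
      refine mul_le_mul_of_nonneg_left ?_ hρ0.le
      rw [div_le_div_iff₀ (by positivity) (by positivity)]
      nlinarith
    · have h1 : 24 * d * (ρ - ρ₁) = 3 * ρ := by
        rw [hρ₁]; field_simp; ring
      rw [h1]
      have h2 : Real.exp (-(3 * ρ)) ≤ 1 / 2 :=
        (Real.exp_le_exp.2 (by linarith)).trans exp_num1
      nlinarith
  · push Not at hcase
    have hB2 : (Q.card : ℝ) ≤ 2 * B.card := by linarith
    have hBpos : (0 : ℝ) < B.card := by linarith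
    have hBne : B.Nonempty := by
      rw [← card_pos]
      exact_mod_cast hBpos
    set y : V → EuclideanSpace ℝ (Fin d) := fun v => x v - c with hy
    have hyu : ∀ v ∈ B, ‖y v‖ ^ 2 ≤ ρ := fun v hv => hb v ((filter_subset _ _) hv)
    have hyl : ∀ v ∈ B, ρ * (7 / 8) ≤ ‖y v‖ ^ 2 := by
      intro v hv
      have h1 : ρ₁ < ‖x v - c‖ ^ 2 := not_le.1 (mem_filter.1 hv).2
      have h2 : ρ * (7 / 8) ≤ ρ₁ := by
        rw [hρ₁]
        refine mul_le_mul_of_nonneg_left ?_ hρ0.le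
        have : 1 / (8 * (d : ℝ)) ≤ 1 / 8 := by
          apply one_div_le_one_div_of_le <;> linarith
        linarith
      exact h2.trans h1.le
    have hsm := second_moment y B
    have hlow : (B.card * (ρ * (7 / 8))) ^ 2 ≤ (∑ p ∈ B, ‖y p‖ ^ 2) ^ 2 := by
      refine pow_le_pow_left₀ (by positivity) ?_ 2
      rw [← nsmul_eq_mul, ← sum_const]
      exact sum_le_sum hyl
    set z : V × V → ℝ := fun p => 2 * d * (inner ℝ (y p.1) (y p.2)) ^ 2 / ρ ^ 2 with hz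
    have hzle : ∀ p ∈ B ×ˢ B, z p ≤ ((2 * d : ℕ) : ℝ) := by
      intro p hp
      rw [mem_product] at hp
      have h1 : (inner ℝ (y p.1) (y p.2)) ^ 2 ≤ ρ ^ 2 := by
        have h2 := abs_real_inner_le_norm (y p.1) (y p.2)
        have h3 : (inner ℝ (y p.1) (y p.2)) ^ 2 ≤ (‖y p.1‖ * ‖y p.2‖) ^ 2 := by
          rw [← sq_abs (inner ℝ (y p.1) (y p.2))]
          exact pow_le_pow_left₀ (abs_nonneg _) h2 2
        rw [mul_pow] at h3
        refine h3.trans ?_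
        rw [sq ρ]
        exact mul_le_mul (hyu _ hp.1) (hyu _ hp.2) (by positivity) hρ0.le
      simp only [hz]
      rw [div_le_iff₀ (by positivity)]
      push_cast
      nlinarith
    have hsum : (3 / 2 : ℝ) * (B ×ˢ B).card ≤ ∑ p ∈ B ×ˢ B, z p := by
      rw [sum_product, card_product]
      push_cast
      have h1 : ∑ p ∈ B, ∑ q ∈ B, z (p, q) =
          2 * d / ρ ^ 2 * ∑ p ∈ B, ∑ q ∈ B, (inner ℝ (y p) (y q)) ^ 2 := by
        rw [mul_sum]
        refine sum_congr rfl (fun p _ => ?_)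
        rw [mul_sum]
        refine sum_congr rfl (fun q _ => ?_)
        simp only [hz]
        ring
      rw [h1]
      have h2 : (B.card * (ρ * (7 / 8))) ^ 2 ≤
          d * ∑ p ∈ B, ∑ q ∈ B, (inner ℝ (y p) (y q)) ^ 2 := hlow.trans hsm
      have h3 : 2 * d / ρ ^ 2 * ∑ p ∈ B, ∑ q ∈ B, (inner ℝ (y p) (y q)) ^ 2 =
          2 / ρ ^ 2 * (d * ∑ p ∈ B, ∑ q ∈ B, (inner ℝ (y p) (y q)) ^ 2) := by ring
      rw [h3]
      have h4 : 2 / ρ ^ 2 * (B.card * (ρ * (7 / 8))) ^ 2 = 49 / 32 * (B.card * B.card : ℝ) := by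
        field_simp
        ring
      have h5 := mul_le_mul_of_nonneg_left h2 (show 0 ≤ 2 / ρ ^ 2 by positivity)
      rw [h4] at h5
      nlinarith [mul_pos hBpos hBpos]
    obtain ⟨j, hj1, hjJ, hj⟩ := layer (B ×ˢ B) z (2 * d) J hJ (by omega) hzle
      (hBne.product hBne) hsum
    have hj1' : (1 : ℝ) ≤ j := by exact_mod_cast hj1
    -- one point
    have hfib : ((B ×ˢ B).filter (fun p => (j : ℝ) ≤ z p)).card =
        ∑ p ∈ B, (B.filter (fun q => (j : ℝ) ≤ z (p, q))).card := by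
      rw [card_filter, sum_product]
      refine sum_congr rfl (fun p _ => ?_)
      rw [card_filter]
    obtain ⟨p, hp, hpc⟩ : ∃ p ∈ B, (B.card : ℝ) ≤
        4 ^ j * (B.filter (fun q => (j : ℝ) ≤ z (p, q))).card := by
      by_contra hcon
      push Not at hcon
      have h1 : (4 : ℝ) ^ j * ∑ p ∈ B, ((B.filter (fun q => (j : ℝ) ≤ z (p, q))).card : ℝ) <
          ∑ p ∈ B, (B.card : ℝ) := by
        rw [mul_sum]
        exact sum_lt_sum_of_nonempty hBne hcon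
      rw [sum_const, nsmul_eq_mul] at h1
      rw [hfib, card_product] at hj
      push_cast at hj
      linarith
    set C := B.filter (fun q => (j : ℝ) ≤ z (p, q)) with hC
    have hppos : 0 < ‖y p‖ ^ 2 := lt_of_lt_of_le (by positivity) (hyl p hp)
    set t : ℝ := Real.sqrt (j / (2 * d)) with ht
    have ht0 : 0 ≤ t := Real.sqrt_nonneg _
    have ht2 : t ^ 2 = j / (2 * d) := Real.sq_sqrt (by positivity)
    have hCt : ∀ q ∈ C, t * ρ ≤ |inner ℝ (y p) (y q)| := by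
      intro q hq
      have h1 := (mem_filter.1 hq).2
      simp only [hz] at h1
      rw [le_div_iff₀ (by positivity)] at h1
      have h2 : (t * ρ) ^ 2 ≤ |inner ℝ (y p) (y q)| ^ 2 := by
        rw [mul_pow, ht2, sq_abs, div_mul_eq_mul_div, div_le_iff₀ (by positivity)]
        linarith
      exact le_of_sq_le_sq h2 (abs_nonneg _)
    -- the sign
    obtain ⟨σ, hσ, hσc⟩ : ∃ σ : ℝ, σ ^ 2 = 1 ∧
        (C.card : ℝ) ≤ 2 * (C.filter (fun q => t * ρ ≤ σ * inner ℝ (y p) (y q))).card := by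
      by_cases h1 : (C.card : ℝ) ≤ 2 * (C.filter (fun q => t * ρ ≤ 1 * inner ℝ (y p) (y q))).card
      · exact ⟨1, by norm_num, h1⟩
      · refine ⟨-1, by norm_num, ?_⟩
        push Not at h1
        have h2 : C.card ≤ (C.filter (fun q => t * ρ ≤ 1 * inner ℝ (y p) (y q))).card +
            (C.filter (fun q => t * ρ ≤ (-1) * inner ℝ (y p) (y q))).card := by
          rw [← card_filter_add_card_filter_not (s := C)
            (fun q => t * ρ ≤ 1 * inner ℝ (y p) (y q))]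
          refine Nat.add_le_add_left (card_le_card (fun q hq => ?_)) _
          rw [mem_filter] at hq ⊢
          refine ⟨hq.1, ?_⟩
          have h3 := hCt q hq.1
          have h4 := hq.2
          rw [one_mul] at h4
          rcases abs_cases (inner ℝ (y p) (y q)) with h5 | h5
          · rw [h5.1] at h3; exact absurd h3 h4
          · rw [h5.1] at h3; linarith
        have h2' : (C.card : ℝ) ≤ (C.filter (fun q => t * ρ ≤ 1 * inner ℝ (y p) (y q))).card +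
            (C.filter (fun q => t * ρ ≤ (-1) * inner ℝ (y p) (y q))).card := by exact_mod_cast h2
        linarith
    refine ⟨C.filter (fun q => t * ρ ≤ σ * inner ℝ (y p) (y q)),
      (filter_subset _ _).trans ((filter_subset _ _).trans (filter_subset _ _)),
      c + (σ * t) • y p, ρ * (1 - t ^ 2), ?_, ?_, ?_, ?_⟩
    · intro q hq
      have h1 := (mem_filter.1 hq).2
      have h2 : q ∈ B := (mem_filter.1 (mem_filter.1 hq).1).1
      have h3 : x q - (c + (σ * t) • y p) = y q - (σ * t) • y p := by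
        simp only [hy]
        abel
      rw [h3, norm_sub_sq_real, inner_smul_right, norm_smul, mul_pow, Real.norm_eq_abs, sq_abs]
      have h4 := hyu q h2
      have h5 := hyu p hp
      have h6 : (σ * t) ^ 2 = t ^ 2 := by rw [mul_pow, hσ, one_mul]
      rw [h6]
      have h7 : t * (t * ρ) ≤ t * (σ * inner ℝ (y p) (y q)) := mul_le_mul_of_nonneg_left h1 ht0
      have h8 : inner ℝ (y q) (y p) = (inner ℝ (y p) (y q) : ℝ) := real_inner_comm _ _
      rw [h8]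
      nlinarith [mul_le_mul_of_nonneg_left h5 (sq_nonneg t)]
    · have : ρ - ρ * (1 - t ^ 2) = ρ * j / (2 * d) := by rw [ht2]; ring
      rw [this, div_le_div_iff₀ (by positivity) (by positivity)]
      nlinarith [mul_le_mul hρ hj1' (by norm_num) hρ0.le]
    · have : ρ - ρ * (1 - t ^ 2) = ρ * (j / (2 * d)) := by rw [ht2]; ring
      rw [this]
      have : (j : ℝ) ≤ J := by exact_mod_cast hjJ
      gcongr
    · have h1 : 24 * d * (ρ - ρ * (1 - t ^ 2)) = 12 * ρ * j := by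
        rw [ht2]; field_simp; ring
      rw [h1]
      have h2 : Real.exp (-(12 * ρ * j)) ≤ 1 / 4 ^ (j + 1) := by
        refine (Real.exp_le_exp.2 ?_).trans (exp_num2 j hj1)
        nlinarith
      have h3 : (Q.card : ℝ) * (1 / 4 ^ (j + 1)) ≤
          (C.filter (fun q => t * ρ ≤ σ * inner ℝ (y p) (y q))).card := by
        have h4 : (Q.card : ℝ) ≤ 4 ^ (j + 1) *
            (C.filter (fun q => t * ρ ≤ σ * inner ℝ (y p) (y q))).card := by
          have h5 : (4 : ℝ) ^ j * C.card ≤ 4 ^ j * (2 *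
            (C.filter (fun q => t * ρ ≤ σ * inner ℝ (y p) (y q))).card) :=
            mul_le_mul_of_nonneg_left hσc (by positivity)
          rw [pow_succ]
          linarith
        rw [mul_one_div, div_le_iff₀ (by positivity), mul_comm]
        exact h4
      exact (mul_le_mul_of_nonneg_left h2 hQpos.le).trans h3

/-- second phase: caps -/
theorem phase2 {V : Type*} {d : ℕ} (hd : 1 ≤ d) (x : V → EuclideanSpace ℝ (Fin d))
    (J : ℕ) (hJ : 1 ≤ J) (hdJ : 12 * d ≤ 4 ^ J) (ρ₁ : ℝ) (hρ₁ : 1 / 4 ≤ ρ₁) :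
    ∀ (n : ℕ) (Q : Finset V) (c : EuclideanSpace ℝ (Fin d)) (ρ : ℝ), Q.Nonempty →
      ρ ≤ 1 → ρ₁ - J / (2 * (d : ℝ)) ≤ ρ → ρ - ρ₁ ≤ n * (1 / (32 * (d : ℝ))) →
      (∀ v ∈ Q, ‖x v - c‖ ^ 2 ≤ ρ) →
      ∃ Q' ⊆ Q, ∃ c' : EuclideanSpace ℝ (Fin d), (∀ v ∈ Q', ‖x v - c'‖ ^ 2 ≤ ρ₁) ∧
        Q.card * Real.exp (-(24 * d * (ρ - ρ₁)) - 12 * J) ≤ Q'.card := by
  have hd0 : (0 : ℝ) < d := by exact_mod_cast hd
  have hdone : ∀ (Q : Finset V) (c : EuclideanSpace ℝ (Fin d)) (ρ : ℝ),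
      ρ₁ - J / (2 * (d : ℝ)) ≤ ρ → ρ ≤ ρ₁ → (∀ v ∈ Q, ‖x v - c‖ ^ 2 ≤ ρ) →
      ∃ Q' ⊆ Q, ∃ c' : EuclideanSpace ℝ (Fin d), (∀ v ∈ Q', ‖x v - c'‖ ^ 2 ≤ ρ₁) ∧
        Q.card * Real.exp (-(24 * d * (ρ - ρ₁)) - 12 * J) ≤ Q'.card := by
    intro Q c ρ h1 h2 h3
    refine ⟨Q, Subset.refl _, c, fun v hv => (h3 v hv).trans h2, ?_⟩
    have h4 : Real.exp (-(24 * d * (ρ - ρ₁)) - 12 * J) ≤ 1 := by
      rw [Real.exp_le_one_iff]
      have h5 : 24 * d * (ρ₁ - ρ) ≤ 24 * d * (J / (2 * (d : ℝ))) :=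
        mul_le_mul_of_nonneg_left (by linarith) (by positivity)
      have h6 : 24 * d * (J / (2 * (d : ℝ))) = 12 * J := by field_simp; ring
      linarith
    have h5 : (0 : ℝ) ≤ Q.card := Nat.cast_nonneg _
    nlinarith
  intro n
  induction n with
  | zero =>
    intro Q c ρ _ _ h1 h2 h3
    exact hdone Q c ρ h1 (by simpa using h2) h3
  | succ n ih =>
    intro Q c ρ hQ hρ h1 h2 h3
    by_cases hρle : ρ ≤ ρ₁
    · exact hdone Q c ρ h1 hρle h3
    · push Not at hρle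
      obtain ⟨Q', hQ', c', ρ', h4, h5, h6, h7⟩ := cap hd x Q hQ c ρ (by linarith) J hJ hdJ h3
      have hQpos : (0 : ℝ) < Q.card := by exact_mod_cast hQ.card_pos
      have hQ'ne : Q'.Nonempty := by
        rw [← card_pos]
        have : (0 : ℝ) < Q'.card := lt_of_lt_of_le (by positivity) h7
        exact_mod_cast this
      have h32 : (0 : ℝ) < 1 / (32 * (d : ℝ)) := by positivity
      have h8 : ρ₁ - J / (2 * (d : ℝ)) ≤ ρ' := by
        have h9 : ρ * (J / (2 * (d : ℝ))) ≤ 1 * (J / (2 * (d : ℝ))) :=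
          mul_le_mul_of_nonneg_right hρ (by positivity)
        linarith
      obtain ⟨Q'', hQ'', c'', h9, h10⟩ := ih Q' c' ρ' hQ'ne (by linarith) h8 (by
        push_cast at h2
        linarith) h4
      refine ⟨Q'', hQ''.trans hQ', c'', h9, le_trans ?_ h10⟩
      have h11 : Real.exp (-(24 * d * (ρ - ρ₁)) - 12 * J) =
          Real.exp (-(24 * d * (ρ - ρ'))) * Real.exp (-(24 * d * (ρ' - ρ₁)) - 12 * J) := by
        rw [← Real.exp_add]
        congr 1
        ring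
      rw [h11, ← mul_assoc]
      exact mul_le_mul_of_nonneg_right h7 (Real.exp_pos _).le

end Pool.Agent.H40.SP
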