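import Pool.Agent.H40.SP.Ten

/-!
# Supersaturation on the cube
-/

namespace Pool.Agent.H40.SP

open Finset

open Classical

/-- **Supersaturation.** Between two large sets of sign vectors there are many pairs with a
negative inner product. -/
theorem supersat {d : ℕ} {s : ℝ} (hs : 1 ≤ s) (hsd : 272 * s ≤ √d)
    (A B : Finset (Fin d → Bool)) (hA : 2 ^ d * Real.exp (-(s * √d)) ≤ A.card)
    (hB : 2 ^ d * Real.exp (-(s * √d)) ≤ B.card) :
    Real.exp (-(2790 * s ^ 2)) * (A.card * B.card) ≤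
      ((A ×ˢ B).filter (fun p => ip p.1 p.2 < 0)).card := by
  have hsq : 0 < √(d : ℝ) := by linarith
  have hdsq : √(d : ℝ) ^ 2 = d := Real.sq_sqrt (Nat.cast_nonneg _)
  set ρ : ℝ := 34 * s / √d with hρ
  have hρ0 : 0 < ρ := by positivity
  have hρ1 : ρ ≤ 1 / 8 := by
    rw [hρ, div_le_div_iff₀ hsq (by norm_num)]
    linarith
  have hρs : ρ * √d = 34 * s := by
    rw [hρ]
    field_simp
  have hρ2 : ρ ^ 2 * d = 1156 * s ^ 2 := by
    rw [← hdsq, ← mul_pow, hρs]
    ring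
  have hNpos : (0 : ℝ) < 2 ^ d := by positivity
  have hA0 : (0 : ℝ) < A.card := lt_of_lt_of_le (by positivity) hA
  have hB0 : (0 : ℝ) < B.card := lt_of_lt_of_le (by positivity) hB
  have hcard : ∀ S : Finset (Fin d → Bool), (S.card : ℝ) ≤ 2 ^ d := by
    intro S
    have := card_le_univ S
    rw [Fintype.card_fun, Fintype.card_bool, Fintype.card_fin] at this
    exact_mod_cast this
  set t : ℝ := A.card / 2 ^ d * (B.card / 2 ^ d) with ht
  have ht0 : 0 < t := by positivity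
  have h4t : 4 ^ d * t = A.card * B.card := by
    have : (4 : ℝ) ^ d = 2 ^ d * 2 ^ d := by
      rw [← mul_pow]
      norm_num
    rw [ht, this]
    field_simp
  have htlog : -(2 * s * √d) ≤ Real.log t := by
    have h1 : Real.exp (-(s * √d)) ≤ A.card / 2 ^ d := by
      rw [le_div_iff₀ hNpos, mul_comm]
      exact hA
    have h2 : Real.exp (-(s * √d)) ≤ B.card / 2 ^ d := by
      rw [le_div_iff₀ hNpos, mul_comm]
      exact hB
    have h3 : Real.exp (-(s * √d)) * Real.exp (-(s * √d)) ≤ t :=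
      mul_le_mul h1 h2 (Real.exp_pos _).le (by positivity)
    rw [← Real.exp_add] at h3
    have h4 := Real.log_le_log (Real.exp_pos _) h3
    rw [Real.log_exp] at h4
    linarith
  have htlog0 : Real.log t ≤ 0 := by
    apply Real.log_nonpos ht0.le
    have h1 : (A.card : ℝ) / 2 ^ d ≤ 1 := (div_le_one hNpos).2 (hcard A)
    have h2 : (B.card : ℝ) / 2 ^ d ≤ 1 := (div_le_one hNpos).2 (hcard B)
    have := mul_le_mul h1 h2 (by positivity) (by norm_num)
    rw [ht]
    linarith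
  -- the lower bound for the first moment
  have hlow : Real.exp (-(544 * s ^ 2)) * (A.card * B.card) ≤ ∑ x ∈ A, ∑ y ∈ B, ker ρ x y := by
    refine le_trans ?_ (rev_sets hρ0.le hρ1 A B)
    rw [← ht, ← h4t]
    have h1 : 0 < 1 - 4 * ρ := by linarith
    have h2 : t ^ (1 / (1 - 4 * ρ)) = t * t ^ (4 * ρ / (1 - 4 * ρ)) := by
      have : 1 / (1 - 4 * ρ) = 1 + 4 * ρ / (1 - 4 * ρ) := by
        field_simp
        ring
      rw [this, Real.rpow_add ht0, Real.rpow_one]
    have h3 : Real.exp (-(544 * s ^ 2)) ≤ t ^ (4 * ρ / (1 - 4 * ρ)) := by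
      rw [Real.rpow_def_of_pos ht0]
      apply Real.exp_le_exp.2
      have h4 : 4 * ρ / (1 - 4 * ρ) ≤ 8 * ρ := by
        rw [div_le_iff₀ h1]
        nlinarith
      have h5 : 0 ≤ 4 * ρ / (1 - 4 * ρ) := by positivity
      have h6 : (-Real.log t) * (4 * ρ / (1 - 4 * ρ)) ≤ (2 * s * √d) * (8 * ρ) :=
        mul_le_mul (by linarith) h4 h5 (by positivity)
      have h7 : (2 * s * √d) * (8 * ρ) = 544 * s ^ 2 := by
        calc (2 * s * √d) * (8 * ρ) = 16 * s * (ρ * √d) := by ring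
          _ = _ := by rw [hρs]; ring
      linarith
    rw [h2]
    have h4 : 0 < (4 : ℝ) ^ d * t := by positivity
    calc Real.exp (-(544 * s ^ 2)) * (4 ^ d * t) ≤ t ^ (4 * ρ / (1 - 4 * ρ)) * (4 ^ d * t) :=
          mul_le_mul_of_nonneg_right h3 h4.le
      _ = _ := by ring
  -- the upper bound for the second moment
  have hupp : ∑ x ∈ A, ∑ y ∈ B, ker ρ x y ^ 2 ≤ Real.exp (1700 * s ^ 2) * (A.card * B.card) := by
    set ρ' : ℝ := 2 * ρ / (1 + ρ ^ 2) with hρ'
    have h1 : 0 < ρ' := by positivity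
    have h2 : ρ' ≤ 2 * ρ := by
      rw [hρ', div_le_iff₀ (by positivity)]
      nlinarith [pow_pos hρ0 3]
    have h3 := fwd_sets h1.le (by linarith) A B
    rw [← ht] at h3
    have h4 : t ^ (1 / (1 + 4 * ρ')) ≤ t * Real.exp (544 * s ^ 2) := by
      have h5 : 1 / (1 + 4 * ρ') = 1 + -(4 * ρ' / (1 + 4 * ρ')) := by
        field_simp
        ring
      rw [h5, Real.rpow_add ht0, Real.rpow_one]
      refine mul_le_mul_of_nonneg_left ?_ ht0.le
      rw [Real.rpow_def_of_pos ht0]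
      apply Real.exp_le_exp.2
      have h6 : 4 * ρ' / (1 + 4 * ρ') ≤ 8 * ρ := by
        rw [div_le_iff₀ (by positivity)]
        nlinarith [mul_pos hρ0 h1]
      have h7 : 0 ≤ 4 * ρ' / (1 + 4 * ρ') := by positivity
      have h8 : (-Real.log t) * (4 * ρ' / (1 + 4 * ρ')) ≤ (2 * s * √d) * (8 * ρ) :=
        mul_le_mul (by linarith) h6 h7 (by positivity)
      have h9 : (2 * s * √d) * (8 * ρ) = 544 * s ^ 2 := by
        calc (2 * s * √d) * (8 * ρ) = 16 * s * (ρ * √d) := by ring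
          _ = _ := by rw [hρs]; ring
      linarith
    have h5 : (1 + ρ ^ 2) ^ d ≤ Real.exp (1156 * s ^ 2) := by
      have h6 := Real.add_one_le_exp (ρ ^ 2)
      calc (1 + ρ ^ 2) ^ d ≤ (Real.exp (ρ ^ 2)) ^ d :=
            pow_le_pow_left₀ (by positivity) (by linarith) d
        _ = Real.exp (1156 * s ^ 2) := by
            rw [← Real.exp_nat_mul, mul_comm (d : ℝ), hρ2]
    have h6 : ∑ x ∈ A, ∑ y ∈ B, ker ρ x y ^ 2 = (1 + ρ ^ 2) ^ d * ∑ x ∈ A, ∑ y ∈ B, ker ρ' x y := by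
      rw [mul_sum]
      refine sum_congr rfl (fun x _ => ?_)
      rw [mul_sum]
      exact sum_congr rfl (fun y _ => ker_sq ρ x y)
    rw [h6]
    calc (1 + ρ ^ 2) ^ d * ∑ x ∈ A, ∑ y ∈ B, ker ρ' x y ≤
        (1 + ρ ^ 2) ^ d * (4 ^ d * t ^ (1 / (1 + 4 * ρ'))) :=
          mul_le_mul_of_nonneg_left h3 (by positivity)
      _ ≤ Real.exp (1156 * s ^ 2) * (4 ^ d * (t * Real.exp (544 * s ^ 2))) := by gcongr
      _ = (Real.exp (1156 * s ^ 2) * Real.exp (544 * s ^ 2)) * (4 ^ d * t) := by ring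
      _ = _ := by
          rw [← Real.exp_add, h4t]
          ring_nf
  set P := A ×ˢ B with hP
  set Neg := P.filter (fun p => ip p.1 p.2 < 0) with hNeg
  have hPcard : (P.card : ℝ) = A.card * B.card := by
    rw [hP, card_product]
    push_cast
    rfl
  have hsplit : ∑ x ∈ A, ∑ y ∈ B, ker ρ x y = ∑ p ∈ Neg, ker ρ p.1 p.2 +
      ∑ p ∈ P.filter (fun p => ¬ ip p.1 p.2 < 0), ker ρ p.1 p.2 := by
    rw [← sum_product', sum_filter_add_sum_filter_not]
  have hpos : ∑ p ∈ P.filter (fun p => ¬ ip p.1 p.2 < 0), ker ρ p.1 p.2 ≤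
      A.card * B.card * Real.exp (-(578 * s ^ 2)) := by
    have h1 : ∀ p ∈ P.filter (fun p => ¬ ip p.1 p.2 < 0), ker ρ p.1 p.2 ≤
        Real.exp (-(578 * s ^ 2)) := by
      intro p hp
      refine (ker_le hρ0.le (by linarith) p.1 p.2 (not_lt.1 (mem_filter.1 hp).2)).trans ?_
      rw [hρ2]
      apply Real.exp_le_exp.2
      linarith
    refine (sum_le_card_nsmul _ _ _ h1).trans ?_
    rw [nsmul_eq_mul, ← hPcard]
    refine mul_le_mul_of_nonneg_right ?_ (Real.exp_pos _).le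
    exact_mod_cast card_le_card (filter_subset _ _)
  have hnum : 2 * Real.exp (-(545 * s ^ 2)) ≤ Real.exp (-(544 * s ^ 2)) := by
    have h1 : Real.exp (-(544 * s ^ 2)) = Real.exp (s ^ 2) * Real.exp (-(545 * s ^ 2)) := by
      rw [← Real.exp_add]
      ring_nf
    rw [h1]
    refine mul_le_mul_of_nonneg_right ?_ (Real.exp_pos _).le
    have := Real.add_one_le_exp (s ^ 2)
    nlinarith
  have hnum2 : Real.exp (-(578 * s ^ 2)) ≤ Real.exp (-(545 * s ^ 2)) := by
    apply Real.exp_le_exp.2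
    nlinarith
  have hAB0 : (0 : ℝ) < A.card * B.card := by positivity
  have hneg : A.card * B.card * Real.exp (-(545 * s ^ 2)) ≤ ∑ p ∈ Neg, ker ρ p.1 p.2 := by
    have h1 := mul_le_mul_of_nonneg_left hnum hAB0.le
    have h2 := mul_le_mul_of_nonneg_left hnum2 hAB0.le
    rw [hsplit] at hlow
    linarith
  have hcs : (∑ p ∈ Neg, ker ρ p.1 p.2) ^ 2 ≤ Neg.card * ∑ p ∈ Neg, ker ρ p.1 p.2 ^ 2 :=
    sq_sum_le_card_mul_sum_sq
  have hneg2 : ∑ p ∈ Neg, ker ρ p.1 p.2 ^ 2 ≤ Real.exp (1700 * s ^ 2) * (A.card * B.card) := by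
    refine le_trans ?_ hupp
    rw [← sum_product' (f := fun x y => ker ρ x y ^ 2)]
    exact sum_le_sum_of_subset_of_nonneg (filter_subset _ _) (fun _ _ _ => sq_nonneg _)
  have h1 : (A.card * B.card * Real.exp (-(545 * s ^ 2))) ^ 2 ≤
      Neg.card * (Real.exp (1700 * s ^ 2) * (A.card * B.card)) := by
    refine (pow_le_pow_left₀ (by positivity) hneg 2).trans (hcs.trans ?_)
    exact mul_le_mul_of_nonneg_left hneg2 (Nat.cast_nonneg _)
  have h2 : (A.card * B.card * Real.exp (-(545 * s ^ 2))) ^ 2 =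
      (Real.exp (-(2790 * s ^ 2)) * (A.card * B.card)) *
        (Real.exp (1700 * s ^ 2) * (A.card * B.card)) := by
    have h3 : Real.exp (-(545 * s ^ 2)) ^ 2 = Real.exp (-(2790 * s ^ 2)) * Real.exp (1700 * s ^ 2) := by
      rw [← Real.exp_add, ← Real.exp_nat_mul]
      congr 1
      push_cast
      ring
    rw [mul_pow, h3]
    ring
  rw [h2] at h1
  exact le_of_mul_le_mul_right h1 (by positivity)

/-- the opposite vector -/
def opp {d : ℕ} (x : Fin d → Bool) : Fin d → Bool := fun i => !(x i)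

theorem ip_opp {d : ℕ} (x y : Fin d → Bool) : ip x (opp y) = -ip x y := by
  unfold ip opp
  rw [← sum_neg_distrib]
  refine sum_congr rfl (fun i _ => ?_)
  cases y i <;> simp [sg]

theorem opp_inj {d : ℕ} : Function.Injective (opp : (Fin d → Bool) → (Fin d → Bool)) := by
  intro x y h
  funext i
  have := congrFun h i
  simpa [opp] using this

theorem supersat' {d : ℕ} {s : ℝ} (hs : 1 ≤ s) (hsd : 272 * s ≤ √d)
    (A B : Finset (Fin d → Bool)) (hA : 2 ^ d * Real.exp (-(s * √d)) ≤ A.card)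
    (hB : 2 ^ d * Real.exp (-(s * √d)) ≤ B.card) :
    Real.exp (-(2790 * s ^ 2)) * (A.card * B.card) ≤
      ((A ×ˢ B).filter (fun p => 0 < ip p.1 p.2)).card := by
  have hc : (B.image opp).card = B.card := card_image_of_injective _ opp_inj
  have h1 := supersat hs hsd A (B.image opp) hA (by rw [hc]; exact hB)
  rw [hc] at h1
  refine h1.trans ?_
  have h2 : ((A ×ˢ B.image opp).filter (fun p => ip p.1 p.2 < 0)).card ≤
      ((A ×ˢ B).filter (fun p => 0 < ip p.1 p.2)).card := by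
    refine card_le_card_of_surjOn (fun p => (p.1, opp p.2)) ?_
    intro p hp
    rw [mem_coe, mem_filter, mem_product] at hp
    obtain ⟨⟨h3, h4⟩, h5⟩ := hp
    obtain ⟨y, hy, hy2⟩ := mem_image.1 h4
    refine ⟨(p.1, y), ?_, ?_⟩
    · rw [mem_coe, mem_filter, mem_product]
      refine ⟨⟨h3, hy⟩, ?_⟩
      rw [← hy2, ip_opp] at h5
      show 0 < ip p.1 y
      linarith
    · show (p.1, opp y) = p
      rw [hy2]
  exact_mod_cast h2

end Pool.Agent.H40.SP
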