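import Pool.Agent.H40.SP.Defs
import Pool.Agent.H40.SP.Sup
import Pool.Graph.R_pool_sql_team_seeded_63374d34.N920.FF.Lower

/-!
# Counting sequences of sign vectors with all inner products of one sign
-/

namespace Pool.Agent.H40.SP

open Finset

open Classical

open Pool.Agent.N920.FF (cs cs_succ exists_fam)

/-- a container bound -/
theorem cont {Ω : Type*} [Fintype Ω] (col : Ω → Ω → Prop) {M β Bd : ℝ} (hM : 0 ≤ M)
    (hβ1 : β ≤ 1) (hBd : 1 ≤ Bd) (hN : (Fintype.card Ω : ℝ) ≤ M * Bd)
    (hbad : ∀ U : Finset Ω, M ≤ U.card →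
      ((univ.filter (fun x => (1 - β) * U.card < ((U.filter (col x)).card : ℝ))).card : ℝ) ≤ M) :
    ∀ (k s : ℕ) (U : Finset Ω), (1 - β) ^ s * U.card ≤ M →
      ((cs col k U).card : ℝ) ≤ (2 * M) ^ k * Bd ^ s := by
  intro k
  induction k with
  | zero =>
    intro s U _
    have h1 : (cs col 0 U).card ≤ 1 := by
      refine (card_le_univ _).trans ?_
      simp
    have h2 : (1 : ℝ) ≤ Bd ^ s := one_le_pow₀ hBd
    have h3 : ((cs col 0 U).card : ℝ) ≤ 1 := by exact_mod_cast h1
    rw [pow_zero, one_mul]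
    linarith
  | succ k ih =>
    intro s U hU
    have hsucc : ((cs col (k + 1) U).card : ℝ) ≤ ∑ x ∈ U, ((cs col k (U.filter (col x))).card : ℝ) := by
      exact_mod_cast cs_succ col k U
    have hBs : (0 : ℝ) ≤ Bd ^ s := by positivity
    have h2M : (0 : ℝ) ≤ (2 * M) ^ k := by positivity
    have h1β : 0 ≤ 1 - β := by linarith
    have hmono : ∀ x, ((cs col k (U.filter (col x))).card : ℝ) ≤ (2 * M) ^ k * Bd ^ s := by
      intro x
      refine ih s _ (le_trans ?_ hU)
      refine mul_le_mul_of_nonneg_left ?_ (by positivity)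
      exact_mod_cast card_le_card (filter_subset _ _)
    rcases le_or_gt (U.card : ℝ) M with hc | hc
    · refine hsucc.trans ((sum_le_card_nsmul _ _ _ (fun x _ => hmono x)).trans ?_)
      rw [nsmul_eq_mul]
      calc (U.card : ℝ) * ((2 * M) ^ k * Bd ^ s) ≤ M * ((2 * M) ^ k * Bd ^ s) :=
            mul_le_mul_of_nonneg_right hc (by positivity)
        _ ≤ (2 * M) * ((2 * M) ^ k * Bd ^ s) :=
            mul_le_mul_of_nonneg_right (by linarith) (by positivity)
        _ = _ := by ring
    · obtain ⟨s', rfl⟩ : ∃ s', s = s' + 1 := by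
        rcases s with _ | s'
        · rw [pow_zero, one_mul] at hU
          linarith
        · exact ⟨s', rfl⟩
      set Bad := univ.filter (fun x => (1 - β) * U.card < ((U.filter (col x)).card : ℝ)) with hBad
      rw [← sum_filter_add_sum_filter_not U (fun x => x ∈ Bad)] at hsucc
      have hb : ∑ x ∈ U.filter (fun x => x ∈ Bad), ((cs col k (U.filter (col x))).card : ℝ) ≤
          M * ((2 * M) ^ k * Bd ^ (s' + 1)) := by
        refine (sum_le_card_nsmul _ _ _ (fun x _ => hmono x)).trans ?_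
        rw [nsmul_eq_mul]
        refine mul_le_mul_of_nonneg_right (le_trans ?_ (hbad U hc.le)) (by positivity)
        rw [← hBad]
        exact_mod_cast card_le_card (fun x hx => (mem_filter.1 hx).2)
      have hg : ∑ x ∈ U.filter (fun x => ¬ x ∈ Bad), ((cs col k (U.filter (col x))).card : ℝ) ≤
          M * ((2 * M) ^ k * Bd ^ (s' + 1)) := by
        have h1 : ∀ x ∈ U.filter (fun x => ¬ x ∈ Bad), ((cs col k (U.filter (col x))).card : ℝ) ≤
            (2 * M) ^ k * Bd ^ s' := by
          intro x hx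
          have h2 := (mem_filter.1 hx).2
          rw [hBad, mem_filter, not_and, not_lt] at h2
          have h3 := h2 (mem_univ x)
          refine ih s' _ (le_trans ?_ hU)
          rw [pow_succ, mul_assoc]
          exact mul_le_mul_of_nonneg_left h3 (by positivity)
        refine (sum_le_card_nsmul _ _ _ h1).trans ?_
        rw [nsmul_eq_mul]
        have h4 : ((U.filter (fun x => ¬ x ∈ Bad)).card : ℝ) ≤ M * Bd := by
          refine le_trans ?_ hN
          exact_mod_cast card_le_univ _
        calc ((U.filter (fun x => ¬ x ∈ Bad)).card : ℝ) * ((2 * M) ^ k * Bd ^ s') ≤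
            (M * Bd) * ((2 * M) ^ k * Bd ^ s') := mul_le_mul_of_nonneg_right h4 (by positivity)
          _ = _ := by ring
      calc ((cs col (k + 1) U).card : ℝ) ≤ _ := hsucc
        _ ≤ M * ((2 * M) ^ k * Bd ^ (s' + 1)) + M * ((2 * M) ^ k * Bd ^ (s' + 1)) := add_le_add hb hg
        _ = _ := by ring

/-- supersaturation gives few bad vertices -/
theorem few {Ω : Type*} [Fintype Ω] (col neg : Ω → Ω → Prop) (hdis : ∀ x y, col x y → ¬ neg x y)
    {M β : ℝ} (hM : 0 < M)
    (h : ∀ A B : Finset Ω, M ≤ A.card → M ≤ B.card →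
      β * (A.card * B.card) ≤ ((A ×ˢ B).filter (fun p => neg p.1 p.2)).card)
    (U : Finset Ω) (hU : M ≤ U.card) :
    ((univ.filter (fun x => (1 - β) * U.card < ((U.filter (col x)).card : ℝ))).card : ℝ) ≤ M := by
  by_contra hcon
  push Not at hcon
  set A := univ.filter (fun x => (1 - β) * U.card < ((U.filter (col x)).card : ℝ)) with hA
  have h1 := h A U hcon.le hU
  have hAne : A.Nonempty := by
    rw [← card_pos]
    have : (0 : ℝ) < A.card := lt_trans hM hcon
    exact_mod_cast this
  have h2 : (((A ×ˢ U).filter (fun p => neg p.1 p.2)).card : ℝ) =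
      ∑ x ∈ A, ((U.filter (neg x)).card : ℝ) := by
    rw [card_filter, sum_product]
    push_cast
    refine sum_congr rfl (fun x _ => ?_)
    rw [card_filter]
    push_cast
    rfl
  have h3 : ∑ x ∈ A, ((U.filter (neg x)).card : ℝ) < ∑ x ∈ A, β * U.card := by
    refine sum_lt_sum_of_nonempty hAne (fun x hx => ?_)
    have h4 := (mem_filter.1 hx).2
    have h5 : (U.filter (neg x)).card + (U.filter (col x)).card ≤ U.card := by
      rw [← card_union_of_disjoint]
      · exact card_le_card (union_subset (filter_subset _ _) (filter_subset _ _))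
      · rw [disjoint_left]
        intro y hy hy2
        exact hdis x y (mem_filter.1 hy2).2 (mem_filter.1 hy).2
    have h6 : ((U.filter (neg x)).card : ℝ) + (U.filter (col x)).card ≤ U.card := by
      exact_mod_cast h5
    linarith
  rw [sum_const, nsmul_eq_mul] at h3
  rw [h2] at h1
  have h7 : (A.card : ℝ) * (β * U.card) = β * (A.card * U.card) := by ring
  linarith

theorem ip_comm {d : ℕ} (x y : Fin d → Bool) : ip x y = ip y x := by
  unfold ip
  exact sum_congr rfl (fun i _ => mul_comm _ _)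

/-- The graph of a sequence of sign vectors: adjacency means a positive inner product. -/
def SG {n d : ℕ} (z : Fin n → Fin d → Bool) : SimpleGraph (Fin n) where
  Adj i j := i ≠ j ∧ 0 < ip (z i) (z j)
  symm := ⟨fun i j h => ⟨h.1.symm, by rw [ip_comm]; exact h.2⟩⟩
  loopless := ⟨fun i h => h.1 rfl⟩

theorem ip_int {d : ℕ} (x y : Fin d → Bool) : ∃ m : ℤ, ip x y = m := by
  refine ⟨∑ i, (if x i = y i then 1 else -1), ?_⟩
  unfold ip
  push_cast
  refine sum_congr rfl (fun i _ => ?_)
  cases x i <;> cases y i <;> simp [sg]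

theorem SG_ball {n d : ℕ} (hd : 1 ≤ d) (z : Fin n → Fin d → Bool) : BallGraph (SG z) d := by
  have hd1 : (1 : ℝ) ≤ d := by exact_mod_cast hd
  set c : ℝ := 1 / √(2 * d - 1) with hc
  have hpos : (0 : ℝ) < 2 * d - 1 := by linarith
  have hc2 : c ^ 2 = 1 / (2 * d - 1) := by
    rw [hc, div_pow, one_pow, Real.sq_sqrt hpos.le]
  refine ⟨fun i => WithLp.toLp 2 (fun j => c * sg (z i j)), fun u v huv => ?_⟩
  have h1 : dist (WithLp.toLp 2 (fun j => c * sg (z u j)) : EuclideanSpace ℝ (Fin d))
      (WithLp.toLp 2 (fun j => c * sg (z v j))) = √((2 * d - 2 * ip (z u) (z v)) / (2 * d - 1)) := by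
    rw [EuclideanSpace.dist_eq]
    congr 1
    have h2 : ∀ j, dist (c * sg (z u j)) (c * sg (z v j)) ^ 2 =
        c ^ 2 * (2 - 2 * (sg (z u j) * sg (z v j))) := by
      intro j
      rw [Real.dist_eq, sq_abs]
      have e1 := sg_mul_self (z u j)
      have e2 := sg_mul_self (z v j)
      calc (c * sg (z u j) - c * sg (z v j)) ^ 2 = c ^ 2 * (sg (z u j) * sg (z u j) +
            sg (z v j) * sg (z v j) - 2 * (sg (z u j) * sg (z v j))) := by ring
        _ = _ := by rw [e1, e2]; ring
    simp only [h2]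
    rw [← mul_sum, sum_sub_distrib, sum_const, card_univ, Fintype.card_fin, nsmul_eq_mul, ← mul_sum,
      hc2]
    unfold ip
    ring
  show u ≠ v ∧ 0 < ip (z u) (z v) ↔ _
  have h0 : √((2 * (d : ℝ) - 2 * ip (z u) (z v)) / (2 * d - 1)) ≤ 1 ↔
      (2 * (d : ℝ) - 2 * ip (z u) (z v)) / (2 * d - 1) ≤ 1 := by
    rw [Real.sqrt_le_iff]
    norm_num
  rw [h1, h0, div_le_one hpos]
  obtain ⟨m, hm⟩ := ip_int (z u) (z v)
  rw [hm]
  constructor
  · rintro ⟨-, h⟩
    have h2 : 0 < m := by exact_mod_cast h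
    have h3 : (1 : ℝ) ≤ m := by exact_mod_cast h2
    linarith
  · intro h
    refine ⟨huv, ?_⟩
    by_contra hcon
    push Not at hcon
    linarith

/-- the two colours -/
def cl (b : Bool) {d : ℕ} (x y : Fin d → Bool) : Prop :=
  (b = true → 0 < ip x y) ∧ (b = false → ¬ 0 < ip x y)

theorem SG_noMono {n d k : ℕ} (z : Fin n → Fin d → Bool)
    (hz : ∀ (b : Bool) (e : Fin k → Fin n), StrictMono e →
      ¬ ∀ i j : Fin k, i < j → cl b (z (e i)) (z (e j))) :
    NoMono (SG z) k := by
  constructor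
  · intro S hS
    rw [SimpleGraph.isNClique_iff] at hS
    refine hz true (S.orderEmbOfFin hS.2) (S.orderEmbOfFin hS.2).strictMono ?_
    intro i j hij
    have hne : S.orderEmbOfFin hS.2 i ≠ S.orderEmbOfFin hS.2 j :=
      fun h => hij.ne ((S.orderEmbOfFin hS.2).injective h)
    have := hS.1 (mem_coe.2 (orderEmbOfFin_mem S hS.2 i)) (mem_coe.2 (orderEmbOfFin_mem S hS.2 j)) hne
    exact ⟨fun _ => this.2, fun h => absurd h (by simp)⟩
  · intro S hS
    rw [SimpleGraph.isNClique_iff] at hS
    refine hz false (S.orderEmbOfFin hS.2) (S.orderEmbOfFin hS.2).strictMono ?_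
    intro i j hij
    have hne : S.orderEmbOfFin hS.2 i ≠ S.orderEmbOfFin hS.2 j :=
      fun h => hij.ne ((S.orderEmbOfFin hS.2).injective h)
    have := hS.1 (mem_coe.2 (orderEmbOfFin_mem S hS.2 i)) (mem_coe.2 (orderEmbOfFin_mem S hS.2 j)) hne
    rw [SimpleGraph.compl_adj] at this
    exact ⟨fun h => absurd h (by simp), fun _ h => this.2 ⟨hne, h⟩⟩

/-- The count. -/
theorem count {d k q : ℕ} {s L : ℝ} (hs : 1 ≤ s) (hsd : 272 * s ≤ √d) (hL0 : 0 ≤ L)
    (hL : L ≤ s * √d) (hq : L ≤ Real.exp (-(2790 * s ^ 2)) * q) (hq2 : 2 * q ≤ k) (b : Bool) :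
    ((cs (cl b : (Fin d → Bool) → (Fin d → Bool) → Prop) k univ).card : ℝ) ≤
      (2 * (2 ^ d * Real.exp (-(L / 2)))) ^ k := by
  set β : ℝ := Real.exp (-(2790 * s ^ 2)) with hβ
  have hβ0 : 0 < β := Real.exp_pos _
  have hβ1 : β ≤ 1 := by
    rw [hβ, Real.exp_le_one_iff]
    have := sq_nonneg s
    linarith
  set M : ℝ := 2 ^ d * Real.exp (-L) with hM
  have hM0 : 0 < M := by positivity
  have hML : 2 ^ d * Real.exp (-(s * √d)) ≤ M := by
    rw [hM]
    refine mul_le_mul_of_nonneg_left ?_ (by positivity)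
    apply Real.exp_le_exp.2
    linarith
  have hbad : ∀ U : Finset (Fin d → Bool), M ≤ U.card →
      ((univ.filter (fun x => (1 - β) * U.card < ((U.filter (cl b x)).card : ℝ))).card : ℝ) ≤ M := by
    intro U hU
    rcases b with _ | _
    · refine few (cl false) (fun x y => 0 < ip x y) (fun x y h => h.2 rfl) hM0 ?_ U hU
      intro A B hA hB
      exact supersat' hs hsd A B (hML.trans hA) (hML.trans hB)
    · refine few (cl true) (fun x y => ip x y < 0) (fun x y h => not_lt.2 (h.1 rfl).le) hM0 ?_ U hU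
      intro A B hA hB
      exact supersat hs hsd A B (hML.trans hA) (hML.trans hB)
  have hcard : ((Fintype.card (Fin d → Bool) : ℕ) : ℝ) = 2 ^ d := by
    rw [Fintype.card_fun, Fintype.card_bool, Fintype.card_fin]
    push_cast
    rfl
  have h1 := cont (cl b : (Fin d → Bool) → (Fin d → Bool) → Prop) (M := M)
    (β := β) (Bd := Real.exp L) hM0.le hβ1 (Real.one_le_exp hL0) (by
      rw [hcard, hM, mul_assoc, ← Real.exp_add]
      simp) hbad k q univ (by
      rw [card_univ, hcard, hM, mul_comm]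
      refine mul_le_mul_of_nonneg_left ?_ (by positivity)
      have h2 : 1 - β ≤ Real.exp (-β) := by
        have := Real.add_one_le_exp (-β)
        linarith
      calc (1 - β) ^ q ≤ (Real.exp (-β)) ^ q := pow_le_pow_left₀ (by linarith) h2 q
        _ = Real.exp (-(β * q)) := by
            rw [← Real.exp_nat_mul]
            ring_nf
        _ ≤ Real.exp (-L) := by
            apply Real.exp_le_exp.2
            linarith)
  refine h1.trans ?_
  have h2 : Real.exp L ^ q ≤ Real.exp (L / 2) ^ k := by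
    rw [← Real.exp_nat_mul, ← Real.exp_nat_mul]
    apply Real.exp_le_exp.2
    have h3 : (2 : ℝ) * q ≤ k := by exact_mod_cast hq2
    nlinarith
  calc (2 * M) ^ k * Real.exp L ^ q ≤ (2 * M) ^ k * Real.exp (L / 2) ^ k :=
        mul_le_mul_of_nonneg_left h2 (by positivity)
    _ = (2 * (M * Real.exp (L / 2))) ^ k := by
        rw [← mul_pow]
        ring
    _ = _ := by
        rw [hM, mul_assoc (2 ^ d : ℝ), ← Real.exp_add]
        congr 4
        ring

end Pool.Agent.H40.SP
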