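import Mathlib

/-!
# Unit ball graphs: definitions
-/

namespace Pool.Agent.H40.SP

/-- `G` is a unit ball graph in dimension `d`: its vertices can be placed in the euclidean space
`ℝ ^ d` such that two different vertices are adjacent if and only if their distance is at most
one.  (The least such `d` is the sphericity of `G`.) -/
def BallGraph {V : Type*} (G : SimpleGraph V) (d : ℕ) : Prop :=
  ∃ x : V → EuclideanSpace ℝ (Fin d), ∀ u v, u ≠ v → (G.Adj u v ↔ dist (x u) (x v) ≤ 1)

/-- The colouring with the colour classes `G` and `Gᶜ` has no monochromatic `K_k`. -/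
def NoMono {V : Type*} (G : SimpleGraph V) (k : ℕ) : Prop :=
  G.CliqueFree k ∧ Gᶜ.CliqueFree k

end Pool.Agent.H40.SP
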