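import Pool.Agent.H40.SP.Defs

/-!
# Unit ball graphs: neighbourhoods and shrinking balls
-/

namespace Pool.Agent.H40.SP

open Finset

open Classical

section comb

variable {V : Type*} (G : SimpleGraph V)

/-- independent sets -/
def Ind (S : Finset V) : Prop := ∀ u ∈ S, ∀ v ∈ S, u ≠ v → ¬ G.Adj u v

/-- all independent subsets of `W` have at most `a` elements -/
def Al (W : Finset V) (a : ℕ) : Prop := ∀ S ⊆ W, Ind G S → S.card ≤ a

variable {G}

theorem Al.mono {W W' : Finset V} {a : ℕ} (h : Al G W a) (hW : W' ⊆ W) : Al G W' a :=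
  fun S hS hi => h S (hS.trans hW) hi

/-- Erdős–Szekeres step: many vertices adjacent to one vertex, or a smaller independence number. -/
theorem nbr {γ : ℝ} (hγ : 0 < γ) (hγ1 : γ ≤ 1 / 4) : ∀ (a : ℕ) (W : Finset V), Al G W a →
    1 / γ ≤ (1 - 2 * γ) ^ a * W.card →
    ∃ v ∈ W, ∃ W' ⊆ W, ∃ a' ≤ a, Al G W' a' ∧ (∀ u ∈ W', G.Adj v u) ∧
      γ * ((1 - 2 * γ) ^ a * W.card) ≤ (1 - 2 * γ) ^ a' * W'.card := by
  intro a
  induction a with
  | zero =>
    intro W hW h1
    exfalso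
    have h2 : 0 < 1 / γ := by positivity
    have h3 : 0 < (W.card : ℝ) := by
      rw [pow_zero, one_mul] at h1
      linarith
    obtain ⟨v, hv⟩ : W.Nonempty := by
      rw [← card_pos]
      exact_mod_cast h3
    have := hW {v} (by simpa using hv) (by
      intro u hu w hw huw
      rw [mem_singleton] at hu hw
      exact absurd (hu.trans hw.symm) huw)
    simp at this
  | succ a ih =>
    intro W hW h1
    have hq0 : (0 : ℝ) < 1 - 2 * γ := by linarith
    have hq1 : 1 - 2 * γ ≤ 1 := by linarith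
    have hWc : 1 / γ ≤ W.card := by
      refine h1.trans ?_
      have : (1 - 2 * γ) ^ (a + 1) ≤ 1 := pow_le_one₀ hq0.le hq1
      nlinarith [Nat.cast_nonneg (α := ℝ) W.card]
    have h3 : 0 < (W.card : ℝ) := lt_of_lt_of_le (by positivity) hWc
    obtain ⟨v, hv⟩ : W.Nonempty := by
      rw [← card_pos]
      exact_mod_cast h3
    by_cases hN : γ * W.card ≤ (W.filter (fun u => G.Adj v u)).card
    · refine ⟨v, hv, W.filter (fun u => G.Adj v u), filter_subset _ _, a + 1, le_rfl,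
        hW.mono (filter_subset _ _), fun u hu => (mem_filter.1 hu).2, ?_⟩
      have h4 : (0 : ℝ) ≤ (1 - 2 * γ) ^ (a + 1) := by positivity
      nlinarith [mul_le_mul_of_nonneg_left hN h4]
    · push Not at hN
      set M := W.filter (fun u => u ≠ v ∧ ¬ G.Adj v u) with hM
      have hcard : W.card ≤ (W.filter (fun u => G.Adj v u)).card + M.card + 1 := by
        have hsub : W ⊆ (W.filter (fun u => G.Adj v u)) ∪ M ∪ {v} := by
          intro u hu
          by_cases h5 : G.Adj v u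
          · exact mem_union_left _ (mem_union_left _ (mem_filter.2 ⟨hu, h5⟩))
          · by_cases h6 : u = v
            · exact mem_union_right _ (by simp [h6])
            · exact mem_union_left _ (mem_union_right _ (mem_filter.2 ⟨hu, h6, h5⟩))
        refine (card_le_card hsub).trans ((card_union_le _ _).trans ?_)
        rw [card_singleton]
        exact Nat.add_le_add_right (card_union_le _ _) 1
      have hcard' : (W.card : ℝ) ≤ (W.filter (fun u => G.Adj v u)).card + M.card + 1 := by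
        exact_mod_cast hcard
      have h1W : 1 ≤ γ * W.card := by
        have := mul_le_mul_of_nonneg_left hWc hγ.le
        rwa [mul_one_div_cancel hγ.ne'] at this
      have hMc : (1 - 2 * γ) * W.card ≤ M.card := by nlinarith
      have hMal : Al G M a := by
        intro S hS hI
        have hvS : v ∉ S := fun h => ((mem_filter.1 (hS h)).2.1) rfl
        have h5 := hW (insert v S) (by
          intro u hu
          rcases mem_insert.1 hu with h | h
          · rw [h]; exact hv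
          · exact (mem_filter.1 (hS h)).1) (by
          intro u hu w hw huw
          rcases mem_insert.1 hu with h | h <;> rcases mem_insert.1 hw with h' | h'
          · exact absurd (h.trans h'.symm) huw
          · rw [h]; exact (mem_filter.1 (hS h')).2.2
          · rw [h']; intro h6; exact (mem_filter.1 (hS h)).2.2 h6.symm
          · exact hI u h w h' huw)
        rw [card_insert_of_notMem hvS] at h5
        omega
      have hpow : (0 : ℝ) ≤ (1 - 2 * γ) ^ a := by positivity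
      have hle : (1 - 2 * γ) ^ (a + 1) * W.card ≤ (1 - 2 * γ) ^ a * M.card := by
        rw [pow_succ, mul_assoc]
        exact mul_le_mul_of_nonneg_left hMc hpow
      obtain ⟨v', hv', W', hW', a', ha', h5, h6, h7⟩ := ih M hMal (h1.trans hle)
      refine ⟨v', (mem_filter.1 hv').1, W', hW'.trans (filter_subset _ _), a', by omega, h5, h6,
        le_trans ?_ h7⟩
      exact mul_le_mul_of_nonneg_left hle hγ.le

end comb

section geo

variable {E : Type*} [NormedAddCommGroup E] [InnerProductSpace ℝ E]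

/-- points in two balls are in a smaller ball -/
theorem two_balls {p w : E} {lam : ℝ} (hl0 : 0 ≤ lam) (hpw : ‖p - w‖ ^ 2 ≤ 1) :
    ‖p - lam • w‖ ^ 2 ≤ (1 - lam) * ‖p‖ ^ 2 + lam - lam * (1 - lam) * ‖w‖ ^ 2 := by
  have h1 := norm_sub_sq_real p w
  have h2 := norm_sub_sq_real p (lam • w)
  rw [h2, inner_smul_right, norm_smul, mul_pow, Real.norm_eq_abs, sq_abs]
  nlinarith

theorem num_step (u : ℝ) (hu : 4 ≤ u) :
    (1 - 1 / u) * (1 / 2 + 2 / u) + 1 / u - 1 / u * (1 - 1 / u) * (1 / 2 + 2 / (u + 1)) ≤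
      1 / 2 + 2 / (u + 1) := by
  have hu0 : 0 < u := by linarith
  have h1 : (1 - 1 / u) * (1 / 2 + 2 / u) + 1 / u - 1 / u * (1 - 1 / u) * (1 / 2 + 2 / (u + 1)) =
      1 / 2 + 2 / (u + 1) - (3 * (u + 1) - 4) / (2 * u ^ 2 * (u + 1)) := by
    field_simp
    ring
  rw [h1]
  have : 0 ≤ (3 * (u + 1) - 4) / (2 * u ^ 2 * (u + 1)) := by
    apply div_nonneg
    · linarith
    · positivity
  linarith

variable {V : Type*} {G : SimpleGraph V}

/-- first phase: a large subset in a ball with squared radius `1 / 2 + 2 / (4 + j)` -/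
theorem phase1 (x : V → E) (hG : ∀ u v, G.Adj u v → dist (x u) (x v) ≤ 1)
    {γ : ℝ} (hγ : 0 < γ) (hγ1 : γ ≤ 1 / 4) (a₀ : ℕ) (W₀ : Finset V) (h₀ : Al G W₀ a₀) :
    ∀ j : ℕ, 2 / γ ≤ (γ / 2) ^ j * ((1 - 2 * γ) ^ a₀ * W₀.card) →
    ∃ W ⊆ W₀, ∃ a : ℕ, Al G W a ∧ ∃ c : E,
      (∀ v ∈ W, ‖x v - c‖ ^ 2 ≤ 1 / 2 + 2 / (4 + (j : ℝ))) ∧
      (γ / 2) ^ (j + 1) * ((1 - 2 * γ) ^ a₀ * W₀.card) ≤ (1 - 2 * γ) ^ a * W.card := by
  have hq0 : (0 : ℝ) < 1 - 2 * γ := by linarith
  intro j
  induction j with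
  | zero =>
    intro h1
    rw [pow_zero, one_mul] at h1
    have h2 : 1 / γ ≤ 2 / γ := by
      gcongr
      norm_num
    obtain ⟨v, hv, W', hW', a', -, h3, h4, h5⟩ := nbr hγ hγ1 a₀ W₀ h₀ (h2.trans h1)
    refine ⟨W', hW', a', h3, x v, ?_, ?_⟩
    · intro u hu
      have h6 := hG v u (h4 u hu)
      rw [dist_comm, dist_eq_norm] at h6
      have : ‖x u - x v‖ ^ 2 ≤ 1 := by
        have := norm_nonneg (x u - x v)
        nlinarith
      norm_num
      linarith
    · refine le_trans ?_ h5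
      rw [zero_add, pow_one]
      have : 0 ≤ (1 - 2 * γ) ^ a₀ * (W₀.card : ℝ) := by positivity
      nlinarith
  | succ j ih =>
    intro h1
    have hΦ : 0 ≤ (1 - 2 * γ) ^ a₀ * (W₀.card : ℝ) := by positivity
    have hg1 : γ / 2 ≤ 1 := by linarith
    obtain ⟨W, hW, a, hal, c, hc, hs⟩ := ih (h1.trans (by
      refine mul_le_mul_of_nonneg_right ?_ hΦ
      exact pow_le_pow_of_le_one (by positivity) hg1 (Nat.le_succ j)))
    set u : ℝ := 4 + (j : ℝ) with hu
    have hu4 : 4 ≤ u := by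
      rw [hu]
      have : (0 : ℝ) ≤ j := Nat.cast_nonneg j
      linarith
    have hu1 : 4 + (((j + 1 : ℕ)) : ℝ) = u + 1 := by
      rw [hu]
      push_cast
      ring
    rw [hu1]
    set A := W.filter (fun v => ‖x v - c‖ ^ 2 ≤ 1 / 2 + 2 / (u + 1)) with hA
    set B := W.filter (fun v => ¬ ‖x v - c‖ ^ 2 ≤ 1 / 2 + 2 / (u + 1)) with hB
    have hAB : (A.card : ℝ) + B.card = W.card := by
      exact_mod_cast card_filter_add_card_filter_not (s := W) _
    have hpa : 0 < (1 - 2 * γ) ^ a := by positivity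
    by_cases hcase : (W.card : ℝ) ≤ 2 * A.card
    · refine ⟨A, (filter_subset _ _).trans hW, a, hal.mono (filter_subset _ _), c,
        fun v hv => (mem_filter.1 hv).2, ?_⟩
      have h3 : (γ / 2) ^ (j + 1 + 1) * ((1 - 2 * γ) ^ a₀ * (W₀.card : ℝ)) =
          (γ / 2) * ((γ / 2) ^ (j + 1) * ((1 - 2 * γ) ^ a₀ * (W₀.card : ℝ))) := by ring
      rw [h3]
      calc (γ / 2) * ((γ / 2) ^ (j + 1) * ((1 - 2 * γ) ^ a₀ * (W₀.card : ℝ)))
          ≤ (γ / 2) * ((1 - 2 * γ) ^ a * W.card) := mul_le_mul_of_nonneg_left hs (by positivity)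
        _ ≤ (1 / 2) * ((1 - 2 * γ) ^ a * W.card) := by
            refine mul_le_mul_of_nonneg_right (by linarith) (by positivity)
        _ ≤ (1 - 2 * γ) ^ a * A.card := by nlinarith
    · push Not at hcase
      have hB2 : (W.card : ℝ) ≤ 2 * B.card := by linarith
      have hsize : 1 / γ ≤ (1 - 2 * γ) ^ a * B.card := by
        have h4 : (2 : ℝ) / γ ≤ (1 - 2 * γ) ^ a * W.card := h1.trans hs
        have h5 : (1 - 2 * γ) ^ a * (W.card : ℝ) ≤ 2 * ((1 - 2 * γ) ^ a * B.card) := by nlinarith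
        have h6 : (2 : ℝ) / γ = 2 * (1 / γ) := by ring
        linarith
      obtain ⟨v, hv, W', hW', a', -, h3, h4, h5⟩ :=
        nbr hγ hγ1 a B (hal.mono (filter_subset _ _)) hsize
      refine ⟨W', hW'.trans ((filter_subset _ _).trans hW), a', h3, c + (1 / u) • (x v - c), ?_, ?_⟩
      · intro y hy
        have hy1 : ‖x y - c‖ ^ 2 ≤ 1 / 2 + 2 / u := hc y ((filter_subset _ _) (hW' hy))
        have hv1 : 1 / 2 + 2 / (u + 1) < ‖x v - c‖ ^ 2 := not_le.1 (mem_filter.1 hv).2
        have hd := hG v y (h4 y hy)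
        rw [dist_comm, dist_eq_norm] at hd
        have hd2 : ‖(x y - c) - (x v - c)‖ ^ 2 ≤ 1 := by
          rw [sub_sub_sub_cancel_right]
          have := norm_nonneg (x y - x v)
          nlinarith
        have hu0 : 0 < u := by linarith
        have h6 := two_balls (p := x y - c) (w := x v - c) (lam := 1 / u) (by positivity) hd2
        have h7 : x y - (c + (1 / u) • (x v - c)) = (x y - c) - (1 / u) • (x v - c) := by abel
        rw [h7]
        refine h6.trans (le_trans ?_ (num_step u hu4))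
        have h8 : 0 ≤ 1 - 1 / u := by
          rw [sub_nonneg, div_le_one hu0]
          linarith
        have h9 : 0 ≤ 1 / u * (1 - 1 / u) := by positivity
        nlinarith [mul_le_mul_of_nonneg_left hy1 h8, mul_le_mul_of_nonneg_left hv1.le h9]
      · refine le_trans ?_ h5
        have h3 : (γ / 2) ^ (j + 1 + 1) * ((1 - 2 * γ) ^ a₀ * (W₀.card : ℝ)) =
            (γ / 2) * ((γ / 2) ^ (j + 1) * ((1 - 2 * γ) ^ a₀ * (W₀.card : ℝ))) := by ring
        rw [h3]
        calc (γ / 2) * ((γ / 2) ^ (j + 1) * ((1 - 2 * γ) ^ a₀ * (W₀.card : ℝ)))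
            ≤ (γ / 2) * ((1 - 2 * γ) ^ a * W.card) := mul_le_mul_of_nonneg_left hs (by positivity)
          _ ≤ (γ / 2) * ((1 - 2 * γ) ^ a * (2 * B.card)) := by gcongr
          _ = γ * ((1 - 2 * γ) ^ a * B.card) := by ring

/-- a set with large distances in a small ball is small -/
theorem small_ball (x : V → E) (c : E) (ρ : ℝ) (S : Finset V)
    (hS : ∀ u ∈ S, ∀ v ∈ S, u ≠ v → 1 ≤ ‖x u - x v‖ ^ 2) (hb : ∀ u ∈ S, ‖x u - c‖ ^ 2 ≤ ρ) :
    (S.card : ℝ) * (1 - 2 * ρ) ≤ 1 := by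
  rcases S.eq_empty_or_nonempty with h0 | h0
  · rw [h0]; simp
  have hpos : (0 : ℝ) < S.card := by exact_mod_cast h0.card_pos
  have h1 : (S.card : ℝ) * (S.card - 1) ≤ ∑ u ∈ S, ∑ v ∈ S, ‖x u - x v‖ ^ 2 := by
    have h2 : ∀ u ∈ S, (S.card : ℝ) - 1 ≤ ∑ v ∈ S, ‖x u - x v‖ ^ 2 := by
      intro u hu
      rw [← add_sum_erase S _ hu]
      have h3 : ((S.erase u).card : ℝ) = S.card - 1 := by
        rw [card_erase_of_mem hu, Nat.cast_sub (by exact_mod_cast h0.card_pos), Nat.cast_one]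
      rw [← h3]
      have h4 : ((S.erase u).card : ℝ) ≤ ∑ v ∈ S.erase u, ‖x u - x v‖ ^ 2 := by
        rw [← nsmul_one, ← sum_const]
        refine sum_le_sum (fun v hv => ?_)
        exact hS u hu v (mem_of_mem_erase hv) (ne_of_mem_erase hv).symm
      have h5 : 0 ≤ ‖x u - x u‖ ^ 2 := by positivity
      linarith
    calc (S.card : ℝ) * (S.card - 1) = ∑ u ∈ S, ((S.card : ℝ) - 1) := by
          rw [sum_const, nsmul_eq_mul]
      _ ≤ _ := sum_le_sum h2
  have h2 : ∑ u ∈ S, ∑ v ∈ S, ‖x u - x v‖ ^ 2 =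
      2 * S.card * ∑ u ∈ S, ‖x u - c‖ ^ 2 - 2 * ‖∑ u ∈ S, (x u - c)‖ ^ 2 := by
    have h3 : ∀ u v, ‖x u - x v‖ ^ 2 = ‖x u - c‖ ^ 2 + ‖x v - c‖ ^ 2 -
        2 * inner ℝ (x u - c) (x v - c) := by
      intro u v
      have h4 := norm_sub_sq_real (x u - c) (x v - c)
      rw [sub_sub_sub_cancel_right] at h4
      rw [h4]; ring
    have h4 : ‖∑ u ∈ S, (x u - c)‖ ^ 2 = ∑ u ∈ S, ∑ v ∈ S, inner ℝ (x u - c) (x v - c) := by
      rw [← real_inner_self_eq_norm_sq, sum_inner]
      refine sum_congr rfl (fun u _ => ?_)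
      rw [inner_sum]
    rw [h4, mul_sum]
    simp_rw [h3, sum_sub_distrib, sum_add_distrib, sum_const, nsmul_eq_mul, ← mul_sum]
    ring
  have h3 : ∑ u ∈ S, ‖x u - c‖ ^ 2 ≤ S.card * ρ := by
    rw [← nsmul_eq_mul, ← sum_const]
    exact sum_le_sum hb
  have h4 : (S.card : ℝ) * (S.card - 1) ≤ 2 * S.card * (S.card * ρ) := by
    have h5 : 0 ≤ ‖∑ u ∈ S, (x u - c)‖ ^ 2 := by positivity
    have h6 := mul_le_mul_of_nonneg_left h3 (show (0 : ℝ) ≤ 2 * S.card by positivity)
    linarith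
  have h5 : (S.card : ℝ) - 1 ≤ 2 * (S.card * ρ) := by
    refine le_of_mul_le_mul_left ?_ hpos
    linarith
  linarith

end geo

end Pool.Agent.H40.SP
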