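import Pool.Agent.H40.SP.Cap

/-!
# Unit ball graphs: the upper bound
-/

namespace Pool.Agent.H40.SP

open Finset

open Classical

variable {V : Type*} {G : SimpleGraph V}

theorem phase3 {γ : ℝ} (hγ : 0 < γ) (hγ1 : γ ≤ 1 / 4) : ∀ (b a : ℕ) (W : Finset V), Al G W b →
    Al Gᶜ W a → (1 - 2 * γ) ^ a * W.card < (1 / γ) ^ (b + 1) := by
  have hq0 : (0 : ℝ) < 1 - 2 * γ := by linarith
  have hγ2 : 1 ≤ 1 / γ := by
    rw [le_div_iff₀ hγ]
    linarith
  intro b
  induction b with
  | zero =>
    intro a W hW _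
    have h1 : W = ∅ := by
      by_contra hne
      obtain ⟨v, hv⟩ := nonempty_iff_ne_empty.2 hne
      have := hW {v} (by simpa using hv) (by
        intro u hu w hw huw
        rw [mem_singleton] at hu hw
        exact absurd (hu.trans hw.symm) huw)
      simp at this
    rw [h1]
    simp
    positivity
  | succ b ih =>
    intro a W hW hW2
    by_contra hcon
    push Not at hcon
    have h1 : 1 / γ ≤ (1 - 2 * γ) ^ a * W.card := by
      refine le_trans ?_ hcon
      calc 1 / γ = (1 / γ) ^ 1 := (pow_one _).symm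
        _ ≤ (1 / γ) ^ (b + 1 + 1) := pow_le_pow_right₀ hγ2 (by omega)
    obtain ⟨v, hv, W', hW', a', -, h3, h4, h5⟩ := nbr hγ hγ1 a W hW2 h1
    have h6 : Al G W' b := by
      intro S hS hI
      have hvS : v ∉ S := fun h => (h4 v (hS h)).ne rfl
      have h7 := hW (insert v S) (by
        intro u hu
        rcases mem_insert.1 hu with h | h
        · rw [h]; exact hv
        · exact hW' (hS h)) (by
        intro u hu w hw huw
        rcases mem_insert.1 hu with h | h <;> rcases mem_insert.1 hw with h' | h'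
        · exact absurd (h.trans h'.symm) huw
        · rw [h]
          have := h4 w (hS h')
          rw [SimpleGraph.compl_adj] at this
          exact this.2
        · rw [h']
          have := h4 u (hS h)
          rw [SimpleGraph.compl_adj] at this
          intro h8
          exact this.2 h8.symm
        · exact hI u h w h' huw)
      rw [card_insert_of_notMem hvS] at h7
      omega
    have h7 := ih a' W' h6 h3
    have h8 : (1 / γ) ^ (b + 1) ≤ γ * ((1 - 2 * γ) ^ a * W.card) := by
      have h9 := mul_le_mul_of_nonneg_left hcon hγ.le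
      rw [pow_succ (1 / γ) (b + 1)] at h9
      have h10 : γ * ((1 / γ) ^ (b + 1) * (1 / γ)) = (1 / γ) ^ (b + 1) := by
        field_simp
      rw [h10] at h9
      exact h9
    linarith

theorem al_of_cliqueFree {n k : ℕ} (H : SimpleGraph (Fin n)) (hk : 1 ≤ k) (h : Hᶜ.CliqueFree k) :
    Al H univ (k - 1) := by
  intro S _ hI
  by_contra hcon
  push Not at hcon
  obtain ⟨T, hTS, hT⟩ := exists_subset_card_eq (show k ≤ S.card by omega)
  refine h T ?_
  rw [SimpleGraph.isNClique_iff]
  refine ⟨?_, hT⟩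
  intro u hu v hv huv
  rw [SimpleGraph.compl_adj]
  exact ⟨huv, hI u (hTS hu) v (hTS hv) huv⟩

theorem exp_le_one_sub {t : ℝ} (h0 : 0 ≤ t) (h1 : t ≤ 1 / 2) : Real.exp (-(2 * t)) ≤ 1 - t := by
  have h2 := Real.quadratic_le_exp_of_nonneg (show 0 ≤ 2 * t by linarith)
  rw [Real.exp_neg, ← one_div, div_le_iff₀ (Real.exp_pos _)]
  have h3 : (1 - t) * (1 + 2 * t + (2 * t) ^ 2 / 2) ≤ (1 - t) * Real.exp (2 * t) :=
    mul_le_mul_of_nonneg_left h2 (by linarith)
  have h4 : 1 ≤ (1 - t) * (1 + 2 * t + (2 * t) ^ 2 / 2) := by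
    nlinarith [mul_nonneg h0 h0, mul_nonneg (mul_nonneg h0 h0) h0]
  linarith

/-- **The upper bound.** -/
theorem upper {n k d i J : ℕ} (H : SimpleGraph (Fin n)) (hB : BallGraph H d) (hM : NoMono H k)
    (hd : 1 ≤ d) (hi : 8 ≤ i) (hik : i ≤ k) (hJ : 1 ≤ J) (hdJ : 12 * d ≤ 4 ^ J) :
    Real.log n ≤ (2 * i + 1) * Real.log (8 * k / i) + 2 * i + 96 * d / i + 12 * J := by
  obtain ⟨x, hx⟩ := hB
  have hk : 1 ≤ k := by omega
  have hi0 : (0 : ℝ) < i := by
    have : 0 < i := by omega
    exact_mod_cast this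
  have hi8 : (8 : ℝ) ≤ i := by exact_mod_cast hi
  have hk0 : (0 : ℝ) < k := by exact_mod_cast hk
  have hik' : (i : ℝ) ≤ k := by exact_mod_cast hik
  have hd0 : (0 : ℝ) < d := by exact_mod_cast hd
  set γ : ℝ := i / (4 * k) with hγdef
  have hγ : 0 < γ := by positivity
  have hγ1 : γ ≤ 1 / 4 := by
    rw [hγdef, div_le_div_iff₀ (by positivity) (by norm_num)]
    linarith
  have hq0 : (0 : ℝ) < 1 - 2 * γ := by linarith
  have hq1 : 1 - 2 * γ ≤ 1 := by linarith
  have h2γ : 2 / γ = 8 * k / i := by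
    rw [hγdef]; field_simp; ring
  have hlog0 : 0 ≤ Real.log (8 * k / i) := by
    apply Real.log_nonneg
    rw [le_div_iff₀ hi0]
    linarith
  have hRHS0 : 0 ≤ (2 * i + 1) * Real.log (8 * k / i) + 2 * i + 96 * d / i + 12 * J := by positivity
  rcases Nat.eq_zero_or_pos n with hn | hn
  · rw [hn, Nat.cast_zero, Real.log_zero]
    exact hRHS0
  have hn0 : (0 : ℝ) < n := by exact_mod_cast hn
  have hal : Al H univ (k - 1) := al_of_cliqueFree H hk hM.2
  have hal' : Al Hᶜ univ (k - 1) := al_of_cliqueFree Hᶜ hk (by rw [compl_compl]; exact hM.1)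
  have hGd : ∀ u v, H.Adj u v → dist (x u) (x v) ≤ 1 := fun u v huv => (hx u v huv.ne).1 huv
  obtain ⟨I, rfl⟩ : ∃ I, i = I + 4 := ⟨i - 4, by omega⟩
  -- the loss
  have hloss : (1 - 2 * γ) ^ (k - 1) ≥ Real.exp (-(((I + 4 : ℕ)) : ℝ)) := by
    have h1 := exp_le_one_sub (t := 2 * γ) (by positivity) (by linarith)
    have h2 : Real.exp (-(2 * (2 * γ))) ^ (k - 1) ≤ (1 - 2 * γ) ^ (k - 1) :=
      pow_le_pow_left₀ (Real.exp_pos _).le h1 _
    refine le_trans ?_ h2
    rw [← Real.exp_nat_mul]
    apply Real.exp_le_exp.2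
    have h3 : ((k - 1 : ℕ) : ℝ) ≤ k := by exact_mod_cast Nat.sub_le k 1
    have h4 : (k : ℝ) * (2 * (2 * γ)) = ((I + 4 : ℕ) : ℝ) := by
      rw [hγdef]; field_simp; ring
    have h5 : ((k - 1 : ℕ) : ℝ) * (2 * (2 * γ)) ≤ k * (2 * (2 * γ)) :=
      mul_le_mul_of_nonneg_right h3 (by positivity)
    linarith
  set Φ : ℝ := (1 - 2 * γ) ^ (k - 1) * ((univ : Finset (Fin n)).card : ℝ) with hΦ
  have hcardn : ((univ : Finset (Fin n)).card : ℝ) = n := by rw [card_univ, Fintype.card_fin]
  have hΦn : Real.exp (-(((I + 4 : ℕ)) : ℝ)) * n ≤ Φ := by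
    rw [hΦ, hcardn]
    exact mul_le_mul_of_nonneg_right hloss hn0.le
  have h2γ1 : 1 ≤ 2 / γ := by
    rw [le_div_iff₀ hγ]; linarith
  by_cases hcase : 2 / γ ≤ (γ / 2) ^ I * Φ
  · -- the main case
    obtain ⟨W, -, a, -, c, hc, hW⟩ := phase1 x hGd hγ hγ1 (k - 1) univ hal I hcase
    have hWc : (γ / 2) ^ (I + 1) * Φ ≤ W.card := by
      refine hW.trans ?_
      have : (1 - 2 * γ) ^ a ≤ 1 := pow_le_one₀ hq0.le hq1
      nlinarith [Nat.cast_nonneg (α := ℝ) W.card]
    have hΦ0 : 0 < Φ := lt_of_lt_of_le (by positivity) hΦn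
    have hW0 : (0 : ℝ) < W.card := lt_of_lt_of_le (by positivity) hWc
    have hWne : W.Nonempty := by
      rw [← card_pos]
      exact_mod_cast hW0
    have hu : (4 : ℝ) + I = ((I + 4 : ℕ) : ℝ) := by push_cast; ring
    rw [hu] at hc
    set i : ℝ := ((I + 4 : ℕ) : ℝ) with hidef
    have h2i : 2 / i ≤ 1 / 4 := by
      rw [div_le_div_iff₀ hi0 (by norm_num)]
      linarith
    have h2i0 : 0 < 2 / i := by positivity
    obtain ⟨m, hm⟩ := exists_nat_ge (32 * (d : ℝ))
    obtain ⟨Q, -, c', hQb, hQ⟩ := phase2 hd x J hJ hdJ (1 / 2 - 2 / i) (by linarith) m W c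
      (1 / 2 + 2 / i) hWne (by linarith) (by
        have : 0 ≤ (J : ℝ) / (2 * d) := by positivity
        linarith) (by
        have h1 : (1 : ℝ) ≤ m * (1 / (32 * (d : ℝ))) := by
          rw [mul_one_div, le_div_iff₀ (by positivity)]
          linarith
        linarith) hc
    have hQal : Al H Q (I + 4) := by
      intro S hS hI
      have h1 := small_ball x c' (1 / 2 - 2 / i) S (by
        intro u hu v hv huv
        have h2 := hI u hu v hv huv
        rw [hx u v huv, not_le, dist_eq_norm] at h2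
        nlinarith) (fun u hu => hQb u (hS hu))
      have h2 : (S.card : ℝ) * (4 / i) ≤ 1 := by
        have : 1 - 2 * (1 / 2 - 2 / i) = 4 / i := by ring
        rw [this] at h1
        exact h1
      rw [mul_div_assoc', div_le_one hi0] at h2
      have h3 : (S.card : ℝ) ≤ i := by
        have := Nat.cast_nonneg (α := ℝ) S.card
        linarith
      rw [hidef] at h3
      exact_mod_cast h3
    have h3 := phase3 hγ hγ1 (I + 4) (k - 1) Q hQal (hal'.mono (subset_univ _))
    -- put together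
    have h4 : Real.exp (-i) * Q.card < (1 / γ) ^ (I + 4 + 1) := by
      refine lt_of_le_of_lt ?_ h3
      exact mul_le_mul_of_nonneg_right hloss (Nat.cast_nonneg _)
    have h5 : Real.exp (-i) * (((γ / 2) ^ (I + 1) * (Real.exp (-i) * n)) *
        Real.exp (-(24 * d * (1 / 2 + 2 / i - (1 / 2 - 2 / i))) - 12 * J)) <
        (2 / γ) ^ (I + 4 + 1) := by
      calc _ ≤ Real.exp (-i) * Q.card := by
            refine mul_le_mul_of_nonneg_left ?_ (Real.exp_pos _).le
            refine le_trans (mul_le_mul_of_nonneg_right ?_ (Real.exp_pos _).le) hQ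
            refine le_trans (mul_le_mul_of_nonneg_left hΦn (by positivity)) hWc
        _ < (1 / γ) ^ (I + 4 + 1) := h4
        _ ≤ _ := by
            refine pow_le_pow_left₀ (by positivity) ?_ _
            gcongr
            norm_num
    have h6 := Real.log_lt_log (by positivity) h5
    rw [Real.log_mul (by positivity) (by positivity), Real.log_mul (by positivity) (by positivity),
      Real.log_mul (by positivity) (by positivity), Real.log_mul (by positivity) (by positivity),
      Real.log_exp, Real.log_exp, Real.log_pow, Real.log_pow] at h6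
    have h7 : Real.log (γ / 2) = -Real.log (2 / γ) := by
      rw [← Real.log_inv, inv_div]
    rw [h7, h2γ] at h6
    have h8 : 24 * (d : ℝ) * (1 / 2 + 2 / i - (1 / 2 - 2 / i)) = 96 * d / i := by
      field_simp; ring
    rw [h8] at h6
    have h9 : ((I + 1 : ℕ) : ℝ) ≤ i := by
      rw [hidef]
      exact_mod_cast (by omega : I + 1 ≤ I + 4)
    have h10 : ((I + 4 + 1 : ℕ) : ℝ) = i + 1 := by rw [hidef]; push_cast; ring
    rw [h10] at h6
    have h11 := mul_le_mul_of_nonneg_right h9 hlog0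
    linarith
  · push Not at hcase
    have h5 : (γ / 2) ^ I * (Real.exp (-(((I + 4 : ℕ)) : ℝ)) * n) < 2 / γ :=
      lt_of_le_of_lt (mul_le_mul_of_nonneg_left hΦn (by positivity)) hcase
    have h6 := Real.log_lt_log (by positivity) h5
    rw [Real.log_mul (by positivity) (by positivity), Real.log_mul (by positivity) (by positivity),
      Real.log_exp, Real.log_pow] at h6
    have h7 : Real.log (γ / 2) = -Real.log (2 / γ) := by
      rw [← Real.log_inv, inv_div]
    rw [h7, h2γ] at h6
    have h9 : (I : ℝ) + 1 ≤ 2 * ((I + 4 : ℕ) : ℝ) + 1 := by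
      push_cast
      have : (0 : ℝ) ≤ I := Nat.cast_nonneg _
      linarith
    have h11 := mul_le_mul_of_nonneg_right h9 hlog0
    have h12 : 0 ≤ 96 * (d : ℝ) / ((I + 4 : ℕ) : ℝ) := by positivity
    have h13 : (0 : ℝ) ≤ J := Nat.cast_nonneg _
    linarith

end Pool.Agent.H40.SP
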