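import Pool.Agent.H40.SP.Cnt
import Pool.Agent.H40.SP.Up

/-!
# Unit ball graphs: the order of the Ramsey numbers
-/

namespace Pool.Agent.H40.SP

open Finset

open Classical

open Pool.Agent.N920.FF (cs exists_fam)

theorem ball_succ {V : Type*} {G : SimpleGraph V} {d : ℕ} (h : BallGraph G d) :
    BallGraph G (d + 1) := by
  obtain ⟨x, hx⟩ := h
  refine ⟨fun v => WithLp.toLp 2 (Fin.cons 0 (fun j => x v j)), fun u v huv => ?_⟩
  rw [hx u v huv]
  have : dist (WithLp.toLp 2 (Fin.cons 0 (fun j => x u j)) : EuclideanSpace ℝ (Fin (d + 1)))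
      (WithLp.toLp 2 (Fin.cons 0 (fun j => x v j))) = dist (x u) (x v) := by
    rw [EuclideanSpace.dist_eq, EuclideanSpace.dist_eq, Fin.sum_univ_succ]
    simp
  rw [this]

theorem ball_mono {V : Type*} {G : SimpleGraph V} {d d' : ℕ} (h : BallGraph G d) (hd : d ≤ d') :
    BallGraph G d' := by
  induction d', hd using Nat.le_induction with
  | base => exact h
  | succ m _ ih => exact ball_succ ih

/-- disjoint cliques -/
def blocks (a : ℕ) : SimpleGraph (Fin (a ^ 2)) where
  Adj u v := u ≠ v ∧ (u : ℕ) / a = (v : ℕ) / a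
  symm := ⟨fun _ _ h => ⟨h.1.symm, h.2.symm⟩⟩
  loopless := ⟨fun _ h => h.1 rfl⟩

theorem blocks_ball (a : ℕ) : BallGraph (blocks a) 1 := by
  refine ⟨fun v => WithLp.toLp 2 (fun _ => 2 * (((v : ℕ) / a : ℕ) : ℝ)), fun u v huv => ?_⟩
  have h1 : dist (WithLp.toLp 2 (fun _ => 2 * (((u : ℕ) / a : ℕ) : ℝ)) : EuclideanSpace ℝ (Fin 1))
      (WithLp.toLp 2 (fun _ => 2 * (((v : ℕ) / a : ℕ) : ℝ))) =
      2 * |(((u : ℕ) / a : ℕ) : ℝ) - (((v : ℕ) / a : ℕ) : ℝ)| := by
    rw [EuclideanSpace.dist_eq]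
    simp only [univ_unique, sum_singleton]
    rw [Real.sqrt_sq dist_nonneg, Real.dist_eq, ← mul_sub, abs_mul]
    norm_num
  rw [h1]
  show u ≠ v ∧ (u : ℕ) / a = (v : ℕ) / a ↔ _
  constructor
  · rintro ⟨-, h⟩
    rw [h]
    simp
  · intro h
    refine ⟨huv, ?_⟩
    by_contra hne
    have h2 : (((u : ℕ) / a : ℕ) : ℤ) - (((v : ℕ) / a : ℕ) : ℤ) ≠ 0 := by omega
    have h3 : 1 ≤ |(((u : ℕ) / a : ℕ) : ℤ) - (((v : ℕ) / a : ℕ) : ℤ)| := Int.one_le_abs h2
    have h4 : (1 : ℝ) ≤ |(((u : ℕ) / a : ℕ) : ℝ) - (((v : ℕ) / a : ℕ) : ℝ)| := by exact_mod_cast h3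
    linarith

theorem blocks_noMono {a : ℕ} (ha : 1 ≤ a) : NoMono (blocks a) (a + 1) := by
  constructor
  · intro S hS
    rw [SimpleGraph.isNClique_iff] at hS
    have h1 : S.card ≤ (range a).card := by
      refine card_le_card_of_injOn (fun v => (v : ℕ) % a) ?_ ?_
      · intro v _
        rw [mem_coe, mem_range]
        exact Nat.mod_lt _ ha
      · intro u hu v hv huv
        by_contra hne
        have h2 := (hS.1 hu hv hne).2
        have h3 : (u : ℕ) = (v : ℕ) := by
          rw [← Nat.div_add_mod (u : ℕ) a, ← Nat.div_add_mod (v : ℕ) a, h2]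
          simp only at huv
          rw [huv]
        exact hne (Fin.ext h3)
    rw [card_range, hS.2] at h1
    omega
  · intro S hS
    rw [SimpleGraph.isNClique_iff] at hS
    have h1 : S.card ≤ (range a).card := by
      refine card_le_card_of_injOn (fun v => (v : ℕ) / a) ?_ ?_
      · intro v _
        rw [mem_coe, mem_range, Nat.div_lt_iff_lt_mul ha, ← sq]
        exact v.2
      · intro u hu v hv huv
        by_contra hne
        have h2 := hS.1 hu hv hne
        rw [SimpleGraph.compl_adj] at h2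
        exact h2.2 ⟨hne, huv⟩
    rw [card_range, hS.2] at h1
    omega

/-- the random graph -/
theorem exists_graph {d k q : ℕ} {s L : ℝ} (hd : 1 ≤ d) (hk : 1 ≤ k) (hs : 1 ≤ s)
    (hsd : 272 * s ≤ √d) (hL0 : 12 ≤ L) (hL : L ≤ s * √d)
    (hq : L ≤ Real.exp (-(2790 * s ^ 2)) * q) (hq2 : 2 * q ≤ k) :
    ∃ G : SimpleGraph (Fin ⌊Real.exp (L / 4)⌋₊), BallGraph G d ∧ NoMono G k := by
  set n := ⌊Real.exp (L / 4)⌋₊ with hn
  set y : ℝ := 2 ^ d * Real.exp (-(L / 2)) with hy
  set u := ⌈y⌉₊ with hu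
  have hLd : L ≤ d := by
    have h1 : √(d : ℝ) ^ 2 = d := Real.sq_sqrt (Nat.cast_nonneg _)
    have h2 : s ≤ √d := by linarith
    have h3 : s * √d ≤ √d * √d := mul_le_mul_of_nonneg_right h2 (Real.sqrt_nonneg _)
    rw [← sq, h1] at h3
    linarith
  have hy1 : 1 ≤ y := by
    have h2 : Real.exp (L / 2) ≤ 2 ^ d := by
      have h3 : Real.exp (L / 2) ≤ Real.exp (d * Real.log 2) := by
        apply Real.exp_le_exp.2
        have := Real.log_two_gt_d9
        nlinarith
      refine h3.trans (le_of_eq ?_)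
      rw [mul_comm, Real.exp_mul, Real.exp_log (by norm_num), Real.rpow_natCast]
    rw [hy, Real.exp_neg, ← div_eq_mul_inv, le_div_iff₀ (Real.exp_pos _), one_mul]
    exact h2
  have hu1 : y ≤ u := Nat.le_ceil y
  have hu2 : (u : ℝ) ≤ 2 * y := by
    have := (Nat.ceil_lt_add_one (show 0 ≤ y by linarith)).le
    linarith
  have hcard : ((Fintype.card (Fin d → Bool) : ℕ) : ℝ) = 2 ^ d := by
    rw [Fintype.card_fun, Fintype.card_bool, Fintype.card_fin]
    push_cast
    rfl
  obtain ⟨z, hz⟩ := exists_fam (fun b => (cl b : (Fin d → Bool) → (Fin d → Bool) → Prop)) 1 u 0 k n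
    (by
      intro b
      rw [pow_zero, pow_zero, mul_one, mul_one]
      have h1 := count hs hsd (by linarith) hL hq hq2 b
      have h2 : (2 * (2 ^ d * Real.exp (-(L / 2)))) ^ k ≤ (2 * (u : ℝ)) ^ k :=
        pow_le_pow_left₀ (by positivity) (by linarith) k
      exact_mod_cast h1.trans h2)
    (by
      rw [pow_zero, pow_zero, mul_one, mul_one]
      have h1 : (n : ℝ) ≤ Real.exp (L / 4) := Nat.floor_le (Real.exp_pos _).le
      have h2 : (n : ℝ) * (2 * u) ≤ 2 ^ d / 4 := by
        have h3 : (n : ℝ) * (2 * u) ≤ Real.exp (L / 4) * (2 * (2 * y)) :=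
          mul_le_mul h1 (by linarith) (by positivity) (Real.exp_pos _).le
        have h4 : Real.exp (L / 4) * (2 * (2 * y)) = 2 ^ d * (4 * Real.exp (-(L / 4))) := by
          have h5 : Real.exp (-(L / 4)) = Real.exp (L / 4) * Real.exp (-(L / 2)) := by
            rw [← Real.exp_add]
            congr 1
            ring
          rw [hy, h5]
          ring
        have h5 : Real.exp (-(L / 4)) ≤ 1 / 16 := by
          have h6 : (16 : ℝ) ≤ Real.exp (L / 4) := by
            have h7 := Real.exp_one_gt_d9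
            have h8 : Real.exp 3 = Real.exp 1 ^ 3 := by
              rw [← Real.exp_nat_mul]
              norm_num
            have h9 : (16 : ℝ) ≤ Real.exp 3 := by
              rw [h8]
              nlinarith [pow_le_pow_left₀ (by norm_num : (0 : ℝ) ≤ 2.7182818283) h7.le 3]
            exact h9.trans (Real.exp_le_exp.2 (by linarith))
          rw [Real.exp_neg, one_div]
          exact inv_anti₀ (by norm_num) h6
        have h6 : (2 : ℝ) ^ d * (4 * Real.exp (-(L / 4))) ≤ 2 ^ d * (1 / 4) :=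
          mul_le_mul_of_nonneg_left (by linarith) (by positivity)
        linarith
      have h3 : ((n : ℝ) * (2 * u)) ^ k ≤ (2 ^ d / 4) ^ k := pow_le_pow_left₀ (by positivity) h2 k
      have h4 : 2 * ((2 : ℝ) ^ d / 4) ^ k < k.factorial * (2 ^ d) ^ k := by
        have h5 : (1 : ℝ) ≤ k.factorial := by exact_mod_cast Nat.succ_le_of_lt (Nat.factorial_pos k)
        have h6 : (1 / 4 : ℝ) ^ k ≤ 1 / 4 := by
          calc (1 / 4 : ℝ) ^ k ≤ (1 / 4) ^ 1 := pow_le_pow_of_le_one (by norm_num) (by norm_num) hk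
            _ = 1 / 4 := pow_one _
        have h7 : (0 : ℝ) < (2 ^ d) ^ k := by positivity
        have h8 : ((2 : ℝ) ^ d / 4) ^ k = (2 ^ d) ^ k * (1 / 4) ^ k := by
          rw [← mul_pow]
          ring
        rw [h8]
        nlinarith [mul_le_mul_of_nonneg_left h6 h7.le, mul_le_mul_of_nonneg_right h5 h7.le]
      have h5 : 2 * ((n : ℝ) * (2 * u)) ^ k < k.factorial * (2 ^ d) ^ k :=
        lt_of_le_of_lt (by linarith) h4
      rw [mul_pow, ← mul_assoc, ← hcard] at h5
      exact_mod_cast h5)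
    (Fintype.card_pos)
  exact ⟨SG z, SG_ball hd z, SG_noMono z hz⟩

/-- The order of the logarithm of the Ramsey number: with `m = min d (k ^ 2)`, it is
`log k + √ (m * log (4 * k ^ 2 / m))`. -/
noncomputable def Psi (d k : ℕ) : ℝ :=
  Real.log k + √((min d (k ^ 2) : ℕ) * Real.log (4 * k ^ 2 / (min d (k ^ 2) : ℕ)))

theorem log_le_sqrt_exp {l : ℝ} : l ≤ Real.exp (l / 2) := by
  rcases le_or_gt 0 l with h | h
  · have := Real.quadratic_le_exp_of_nonneg (show 0 ≤ l / 2 by linarith)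
    nlinarith [sq_nonneg (l / 2 - 1)]
  · exact h.le.trans (Real.exp_pos _).le

/-- facts on the logarithmic factor -/
theorem ell_facts {m k : ℕ} (hm : 1 ≤ m) (hmk : m ≤ k ^ 2) (hk : 3 ≤ k) :
    1 ≤ Real.log (4 * k ^ 2 / m) ∧ Real.log (4 * k ^ 2 / m) ≤ 4 * Real.log k ∧
    Real.exp (Real.log (4 * k ^ 2 / m)) = 4 * k ^ 2 / m ∧ 1 ≤ Real.log k := by
  have hm0 : (0 : ℝ) < m := by exact_mod_cast hm
  have hm1 : (1 : ℝ) ≤ m := by exact_mod_cast hm
  have hk3 : (3 : ℝ) ≤ k := by exact_mod_cast hk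
  have hmk' : (m : ℝ) ≤ k ^ 2 := by exact_mod_cast hmk
  have hlogk : 1 ≤ Real.log k := by
    rw [Real.le_log_iff_exp_le (by linarith)]
    have := Real.exp_one_lt_d9
    linarith
  refine ⟨?_, ?_, Real.exp_log (by positivity), hlogk⟩
  · rw [Real.le_log_iff_exp_le (by positivity), le_div_iff₀ hm0]
    have := Real.exp_one_lt_d9
    nlinarith
  · have h1 : 4 * (k : ℝ) ^ 2 / m ≤ k ^ 4 := by
      rw [div_le_iff₀ hm0]
      have h9 : (9 : ℝ) ≤ k ^ 2 := by nlinarith
      have h10 : 4 * (k : ℝ) ^ 2 ≤ k ^ 4 := by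
        have : (k : ℝ) ^ 4 = k ^ 2 * k ^ 2 := by ring
        rw [this]
        exact mul_le_mul_of_nonneg_right (by linarith) (by positivity)
      have h11 : (k : ℝ) ^ 4 * 1 ≤ k ^ 4 * m := mul_le_mul_of_nonneg_left hm1 (by positivity)
      linarith
    have h2 := Real.log_le_log (by positivity) h1
    rw [Real.log_pow] at h2
    exact_mod_cast h2

/-- **The lower bound.** -/
theorem lower (d k : ℕ) (hd : 1 ≤ d) (hk : 3 ≤ k) :
    ∃ (n : ℕ) (G : SimpleGraph (Fin n)), BallGraph G d ∧ NoMono G k ∧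
      Real.exp (-2790) / 128 * Psi d k ≤ Real.log n := by
  set m := min d (k ^ 2) with hmdef
  have hk2 : 1 ≤ k ^ 2 := Nat.one_le_pow _ _ (by omega)
  have hm1 : 1 ≤ m := le_min hd hk2
  have hmk : m ≤ k ^ 2 := min_le_right _ _
  have hmd : m ≤ d := min_le_left _ _
  obtain ⟨hl1, hl4, hlexp, hlogk⟩ := ell_facts hm1 hmk hk
  set l : ℝ := Real.log (4 * k ^ 2 / m) with hl
  have hm0 : (0 : ℝ) < m := by exact_mod_cast hm1
  have hk3 : (3 : ℝ) ≤ k := by exact_mod_cast hk
  set X : ℝ := √(m * l) with hX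
  have hX0 : 0 ≤ X := Real.sqrt_nonneg _
  have hX2 : X ^ 2 = m * l := Real.sq_sqrt (by positivity)
  have hPsi : Psi d k = Real.log k + X := rfl
  rw [hPsi]
  set κ : ℝ := Real.exp 2790 with hκ
  have hκ1 : 2791 ≤ κ := by
    have := Real.add_one_le_exp (2790 : ℝ)
    rw [hκ]
    linarith
  have hκi : Real.exp (-2790) = κ⁻¹ := by rw [hκ, Real.exp_neg]
  rw [hκi]
  have hκ0 : 0 < κ := by linarith
  have hκi0 : 0 < κ⁻¹ := by positivity
  have hκi1 : κ⁻¹ ≤ 1 / 2791 := by
    rw [one_div]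
    exact inv_anti₀ (by norm_num) hκ1
  rcases le_or_gt X (96 * κ * Real.log k) with hcase | hcase
  · refine ⟨(k - 1) ^ 2, blocks (k - 1), ball_mono (blocks_ball _) hd, ?_, ?_⟩
    · have := blocks_noMono (a := k - 1) (by omega)
      rwa [Nat.sub_add_cancel (by omega)] at this
    · have h1 : (k : ℝ) ≤ (((k - 1) ^ 2 : ℕ) : ℝ) := by
        obtain ⟨j, rfl⟩ : ∃ j, k = j + 3 := ⟨k - 3, by omega⟩
        have : j + 3 ≤ (j + 3 - 1) ^ 2 := by
          have h2 : j + 3 - 1 = j + 2 := by omega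
          rw [h2]
          nlinarith
        exact_mod_cast this
      have h2 := Real.log_le_log (by linarith) h1
      refine le_trans ?_ h2
      have h3 : κ⁻¹ / 128 * (Real.log k + X) ≤ κ⁻¹ / 128 * (Real.log k + 96 * κ * Real.log k) :=
        mul_le_mul_of_nonneg_left (by linarith) (by positivity)
      have h4 : κ⁻¹ / 128 * (Real.log k + 96 * κ * Real.log k) =
          (κ⁻¹ / 128 + 96 / 128) * Real.log k := by
        field_simp
      rw [h4] at h3
      nlinarith
  · set s : ℝ := √(1 + l / 11160) with hs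
    have hs2 : s ^ 2 = 1 + l / 11160 := Real.sq_sqrt (by positivity)
    have hs0 : 0 ≤ s := Real.sqrt_nonneg _
    have hs1 : 1 ≤ s := by
      rw [hs, Real.one_le_sqrt]
      have : 0 ≤ l / 11160 := by positivity
      linarith
    have hXm : X = √m * √l := by rw [hX, Real.sqrt_mul (by positivity)]
    have hsl : √l ^ 2 = l := Real.sq_sqrt (by linarith)
    have hsl0 : 0 ≤ √l := Real.sqrt_nonneg _
    have hsm0 : 0 < √(m : ℝ) := Real.sqrt_pos.2 hm0
    have hXbig : 96 * κ < X := by nlinarith [mul_pos (show (0 : ℝ) < 96 by norm_num) hκ0]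
    have hsd : 272 * s ≤ √m := by
      by_contra hcon
      push Not at hcon
      have h1 : s * √l ≤ 1 + l := by
        have h2 : (s * √l) ^ 2 ≤ (1 + l) ^ 2 := by
          rw [mul_pow, hs2, hsl]
          nlinarith
        exact le_of_sq_le_sq h2 (by linarith)
      have h3 : X ≤ 272 * (s * √l) := by
        rw [hXm]
        nlinarith
      have h4 : X ≤ 2176 * Real.log k := by linarith
      nlinarith
    set L : ℝ := κ⁻¹ / 8 * X with hL
    have hL12 : 12 ≤ L := by
      have h1 : κ⁻¹ / 8 * (96 * κ) ≤ L := mul_le_mul_of_nonneg_left hXbig.le (by positivity)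
      have h2 : κ⁻¹ / 8 * (96 * κ) = 12 := by
        field_simp
        norm_num
      linarith
    have hLs : L ≤ s * √m := by
      have h1 : κ⁻¹ / 8 * √l ≤ s := by
        have h2 : (κ⁻¹ / 8 * √l) ^ 2 ≤ s ^ 2 := by
          rw [mul_pow, hsl, hs2]
          have h3 : (κ⁻¹ / 8) ^ 2 ≤ (1 / 128) ^ 2 :=
            pow_le_pow_left₀ (by positivity) (by linarith) 2
          nlinarith
        exact le_of_sq_le_sq h2 hs0
      rw [hL, hXm]
      nlinarith
    set q := ⌈L * Real.exp (2790 * s ^ 2)⌉₊ with hq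
    have hq1 : L ≤ Real.exp (-(2790 * s ^ 2)) * q := by
      have h1 := Nat.le_ceil (L * Real.exp (2790 * s ^ 2))
      rw [← hq] at h1
      rw [Real.exp_neg, mul_comm, ← div_eq_mul_inv, le_div_iff₀ (Real.exp_pos _)]
      exact h1
    have hXe : X * Real.exp (l / 4) ≤ 2 * k := by
      have h1 : (X * Real.exp (l / 4)) ^ 2 ≤ (2 * k) ^ 2 := by
        have h2 : Real.exp (l / 4) ^ 2 = Real.exp (l / 2) := by
          rw [← Real.exp_nat_mul]
          congr 1
          push_cast
          ring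
        rw [mul_pow, hX2, h2]
        calc (m : ℝ) * l * Real.exp (l / 2) ≤ m * Real.exp (l / 2) * Real.exp (l / 2) := by
              have := log_le_sqrt_exp (l := l)
              gcongr
          _ = m * Real.exp l := by
              rw [mul_assoc, ← Real.exp_add]
              ring_nf
          _ = (2 * k) ^ 2 := by
              rw [hlexp]
              field_simp
              ring
      exact le_of_sq_le_sq h1 (by positivity)
    have hLq : L * Real.exp (2790 * s ^ 2) ≤ k / 4 := by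
      have h1 : Real.exp (2790 * s ^ 2) = κ * Real.exp (l / 4) := by
        rw [hs2, hκ, ← Real.exp_add]
        congr 1
        ring
      rw [h1, hL]
      have h2 : κ⁻¹ / 8 * X * (κ * Real.exp (l / 4)) = X * Real.exp (l / 4) / 8 := by
        field_simp
      rw [h2]
      linarith
    have hkbig : (4 : ℝ) ≤ k := by
      have h1 : X ≤ X * Real.exp (l / 4) := by
        have := Real.one_le_exp (show 0 ≤ l / 4 by linarith)
        nlinarith
      linarith
    have hq2 : 2 * q ≤ k := by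
      have h1 := (Nat.ceil_lt_add_one (show 0 ≤ L * Real.exp (2790 * s ^ 2) by positivity)).le
      rw [← hq] at h1
      have h2 : (2 : ℝ) * q ≤ k := by linarith
      exact_mod_cast h2
    obtain ⟨G, hG1, hG2⟩ := exists_graph hm1 (by omega) hs1 hsd hL12 hLs hq1 hq2
    refine ⟨_, G, ball_mono hG1 hmd, hG2, ?_⟩
    set E := Real.exp (L / 4) with hE
    have hE2 : 2 ≤ E := by
      have := Real.add_one_le_exp (L / 4)
      linarith
    have h1 : E / 2 ≤ (⌊E⌋₊ : ℝ) := by
      have := (Nat.lt_floor_add_one E).le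
      linarith
    have h2 := Real.log_le_log (by positivity) h1
    refine le_trans ?_ h2
    rw [Real.log_div (by positivity) (by norm_num), hE, Real.log_exp]
    have h3 := Real.log_two_lt_d9
    have h4 : Real.log k ≤ X := by nlinarith
    have h5 : κ⁻¹ / 128 * (Real.log k + X) ≤ κ⁻¹ / 128 * (X + X) :=
      mul_le_mul_of_nonneg_left (by linarith) (by positivity)
    have h6 : κ⁻¹ / 128 * (X + X) = L / 8 := by
      rw [hL]
      ring
    linarith

theorem trivial_upper {n k : ℕ} (G : SimpleGraph (Fin n)) (hk : 1 ≤ k) (hM : NoMono G k) :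
    Real.log n ≤ 3 * k := by
  have hal : Al G univ (k - 1) := al_of_cliqueFree G hk hM.2
  have hal' : Al Gᶜ univ (k - 1) := al_of_cliqueFree Gᶜ hk (by rw [compl_compl]; exact hM.1)
  have h1 := phase3 (G := G) (γ := 1 / 4) (by norm_num) le_rfl (k - 1) (k - 1) univ hal hal'
  rw [card_univ, Fintype.card_fin, Nat.sub_add_cancel hk] at h1
  rcases Nat.eq_zero_or_pos n with hn | hn
  · rw [hn, Nat.cast_zero, Real.log_zero]
    positivity
  have hn0 : (0 : ℝ) < n := by exact_mod_cast hn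
  have h2 : (1 / 2 : ℝ) ^ k ≤ (1 - 2 * (1 / 4)) ^ (k - 1) := by
    have : (1 : ℝ) - 2 * (1 / 4) = 1 / 2 := by norm_num
    rw [this]
    exact pow_le_pow_of_le_one (by norm_num) (by norm_num) (Nat.sub_le _ _)
  have h3 : (1 / 2 : ℝ) ^ k * n < 4 ^ k := by
    have h4 : (1 / 2 : ℝ) ^ k * n ≤ (1 - 2 * (1 / 4)) ^ (k - 1) * n :=
      mul_le_mul_of_nonneg_right h2 hn0.le
    have h5 : (1 / (1 / 4) : ℝ) = 4 := by norm_num
    rw [h5] at h1
    linarith
  have h4 : (n : ℝ) ≤ 8 ^ k := by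
    have h5 : (8 : ℝ) ^ k = 2 ^ k * 4 ^ k := by
      rw [← mul_pow]
      norm_num
    have h6 : (n : ℝ) = 2 ^ k * ((1 / 2) ^ k * n) := by
      rw [← mul_assoc, ← mul_pow]
      norm_num
    rw [h5, h6]
    exact mul_le_mul_of_nonneg_left h3.le (by positivity)
  have h5 := Real.log_le_log hn0 h4
  rw [Real.log_pow] at h5
  have h6 : Real.log 8 ≤ 3 := by
    have h7 : Real.log 8 = 3 * Real.log 2 := by
      rw [show (8 : ℝ) = 2 ^ 3 by norm_num, Real.log_pow]
      norm_num
    have := Real.log_two_lt_d9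
    linarith
  have h7 : (0 : ℝ) ≤ k := Nat.cast_nonneg _
  nlinarith

/-- **The upper bound.** -/
theorem upper_final (d k : ℕ) (hd : 1 ≤ d) (hk : 3 ≤ k) (n : ℕ) (G : SimpleGraph (Fin n))
    (hB : BallGraph G d) (hM : NoMono G k) : Real.log n ≤ 110 * Psi d k := by
  set m := min d (k ^ 2) with hmdef
  have hk2 : 1 ≤ k ^ 2 := Nat.one_le_pow _ _ (by omega)
  have hm1 : 1 ≤ m := le_min hd hk2
  have hmk : m ≤ k ^ 2 := min_le_right _ _
  obtain ⟨hl1, hl4, hlexp, hlogk⟩ := ell_facts hm1 hmk hk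
  set l : ℝ := Real.log (4 * k ^ 2 / m) with hl
  have hm0 : (0 : ℝ) < m := by exact_mod_cast hm1
  have hk3 : (3 : ℝ) ≤ k := by exact_mod_cast hk
  set X : ℝ := √(m * l) with hX
  have hX0 : 0 ≤ X := Real.sqrt_nonneg _
  have hX2 : X ^ 2 = m * l := Real.sq_sqrt (by positivity)
  have hPsi : Psi d k = Real.log k + X := rfl
  rw [hPsi]
  have htriv := trivial_upper G (by omega) hM
  rcases Nat.lt_or_ge (k ^ 2) d with hdk | hdk
  · have h1 : m = k ^ 2 := by rw [hmdef]; exact min_eq_right hdk.le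
    have h2 : (k : ℝ) ≤ X := by
      rw [hX]
      apply Real.le_sqrt_of_sq_le
      rw [h1]
      push_cast
      nlinarith [sq_nonneg (k : ℝ)]
    linarith
  rcases Nat.lt_or_ge k 8 with hk8 | hk8
  · have h1 : (k : ℝ) ≤ 8 := by exact_mod_cast hk8.le
    linarith
  have hmd : m = d := by rw [hmdef]; exact min_eq_left hdk
  rw [hmd] at hl hX2 hlexp hm0 hX
  have hk8' : (8 : ℝ) ≤ k := by exact_mod_cast hk8
  have hXm : X = √d * √l := by rw [hX, Real.sqrt_mul hm0.le]
  have hsl : √l ^ 2 = l := Real.sq_sqrt (by linarith)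
  have hsd : √(d : ℝ) ^ 2 = d := Real.sq_sqrt hm0.le
  have hsl1 : 1 ≤ √l := by rw [Real.one_le_sqrt]; exact hl1
  have hsd0 : 0 < √(d : ℝ) := Real.sqrt_pos.2 hm0
  set w : ℝ := √d / √l with hw
  have hw0 : 0 < w := by positivity
  have hwX : w ≤ X := by
    rw [hw, hXm, div_le_iff₀ (by linarith)]
    nlinarith [mul_le_mul hsl1 hsl1 zero_le_one (by linarith : (0 : ℝ) ≤ √l)]
  set i := max 8 ⌈w⌉₊ with hi
  have hi8 : 8 ≤ i := le_max_left _ _
  have hwk : w ≤ k := by
    rw [hw, div_le_iff₀ (by linarith)]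
    have h1 : √(d : ℝ) ≤ k := by
      rw [Real.sqrt_le_left (by linarith)]
      exact_mod_cast hdk
    nlinarith
  have hik : i ≤ k := max_le hk8 (Nat.ceil_le.2 hwk)
  have hwi : w ≤ i := by
    refine (Nat.le_ceil w).trans ?_
    exact_mod_cast le_max_right _ _
  have hi9 : (i : ℝ) ≤ w + 9 := by
    have h1 := (Nat.ceil_lt_add_one hw0.le).le
    have h2 : i ≤ 8 + ⌈w⌉₊ := max_le (Nat.le_add_right _ _) (Nat.le_add_left _ _)
    have h3 : (i : ℝ) ≤ 8 + ⌈w⌉₊ := by exact_mod_cast h2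
    linarith
  have hi0 : (0 : ℝ) < i := lt_of_lt_of_le hw0 hwi
  set J := ⌈Real.log (12 * d)⌉₊ with hJ
  have hlogd : 1 ≤ Real.log (12 * d) := by
    rw [Real.le_log_iff_exp_le (by positivity)]
    have := Real.exp_one_lt_d9
    have h1 : (1 : ℝ) ≤ d := by exact_mod_cast hd
    linarith
  have hJ1 : 1 ≤ J := by
    rw [hJ, Nat.one_le_iff_ne_zero, Ne, Nat.ceil_eq_zero, not_le]
    linarith
  have hJl := Nat.le_ceil (Real.log (12 * (d : ℝ)))
  rw [← hJ] at hJl
  have hJ4 : 12 * d ≤ 4 ^ J := by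
    have h1 : (12 * d : ℝ) ≤ 4 ^ J := by
      calc (12 * d : ℝ) = Real.exp (Real.log (12 * d)) := (Real.exp_log (by positivity)).symm
        _ ≤ Real.exp (J * 1) := Real.exp_le_exp.2 (by linarith)
        _ = Real.exp 1 ^ J := Real.exp_nat_mul 1 J
        _ ≤ 4 ^ J := by
            refine pow_le_pow_left₀ (Real.exp_pos _).le ?_ J
            have := Real.exp_one_lt_d9
            linarith
    exact_mod_cast h1
  have hJup : (J : ℝ) ≤ 6 * Real.log k := by
    have h1 := (Nat.ceil_lt_add_one (show 0 ≤ Real.log (12 * (d : ℝ)) by linarith)).le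
    rw [← hJ] at h1
    have h2 : Real.log (12 * d) ≤ 4 * Real.log k := by
      have h3 : (12 * d : ℝ) ≤ k ^ 4 := by
        have h4 : (d : ℝ) ≤ k ^ 2 := by exact_mod_cast hdk
        have h5 : (64 : ℝ) ≤ k ^ 2 := by nlinarith
        have h6 : (k : ℝ) ^ 4 = k ^ 2 * k ^ 2 := by ring
        have h7 : 12 * (k : ℝ) ^ 2 ≤ k ^ 2 * k ^ 2 :=
          mul_le_mul_of_nonneg_right (by linarith) (by positivity)
        linarith
      have h4 := Real.log_le_log (by positivity) h3
      rw [Real.log_pow] at h4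
      exact_mod_cast h4
    linarith
  have hup := upper G hB hM hd hi8 hik hJ1 hJ4
  -- the logarithm
  have hlog0 : 0 ≤ Real.log (8 * k / i) := by
    apply Real.log_nonneg
    rw [le_div_iff₀ hi0]
    have : (i : ℝ) ≤ k := by exact_mod_cast hik
    linarith
  have hlogA : Real.log (8 * k / i) ≤ Real.log k := by
    apply Real.log_le_log (by positivity)
    rw [div_le_iff₀ hi0]
    have : (8 : ℝ) ≤ i := by exact_mod_cast hi8
    nlinarith
  have hlogB : Real.log (8 * k / i) ≤ 2 * l := by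
    have h1 : 8 * (k : ℝ) / i ≤ Real.exp (2 * l) := by
      have h2 : 8 * (k : ℝ) / i ≤ 8 * k / w := by gcongr
      have h3 : 8 * (k : ℝ) / w = 4 * (2 * k / √d) * √l := by
        rw [hw]
        field_simp
        ring
      have h4 : 2 * (k : ℝ) / √d = Real.exp (l / 2) := by
        have h5 : (2 * (k : ℝ) / √d) ^ 2 = Real.exp (l / 2) ^ 2 := by
          rw [← Real.exp_nat_mul, div_pow, hsd]
          have : ((2 : ℕ) : ℝ) * (l / 2) = l := by push_cast; ring
          rw [this, hlexp]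
          ring
        exact (pow_left_inj₀ (by positivity) (Real.exp_pos _).le (by norm_num)).1 h5
      have h5 : √l ≤ Real.exp (l / 2) := by
        have h6 := log_le_sqrt_exp (l := l)
        nlinarith
      have h6 : (4 : ℝ) ≤ Real.exp l := by
        rw [hlexp, le_div_iff₀ hm0]
        have h4 : (d : ℝ) ≤ k ^ 2 := by exact_mod_cast hdk
        linarith
      rw [h3, h4] at h2
      refine h2.trans ?_
      have h7 : Real.exp (2 * l) = Real.exp l * Real.exp (l / 2) * Real.exp (l / 2) := by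
        rw [← Real.exp_add, ← Real.exp_add]
        congr 1
        ring
      rw [h7]
      gcongr
    have h2 := Real.log_le_log (by positivity) h1
    rwa [Real.log_exp] at h2
  have e1 : (2 * (i : ℝ) + 1) * Real.log (8 * k / i) ≤ 4 * X + 19 * Real.log k := by
    have h1 : (2 * (i : ℝ) + 1) * Real.log (8 * k / i) ≤ (2 * w + 19) * Real.log (8 * k / i) :=
      mul_le_mul_of_nonneg_right (by linarith) hlog0
    have h2 : 2 * w * Real.log (8 * k / i) ≤ 2 * w * (2 * l) :=
      mul_le_mul_of_nonneg_left hlogB (by positivity)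
    have h3 : w * l = X := by
      rw [hw, hXm]
      nth_rw 2 [← hsl]
      field_simp
    nlinarith
  have e2 : 96 * (d : ℝ) / i ≤ 96 * X := by
    have h1 : 96 * (d : ℝ) / i ≤ 96 * d / w := by gcongr
    have h2 : (d : ℝ) / w = X := by
      rw [hw, hXm]
      nth_rw 1 [← hsd]
      field_simp
    rw [mul_div_assoc, mul_div_assoc, h2] at h1
    rw [mul_div_assoc]
    exact h1
  linarith

/-- exponentially large colourings have a large dimension -/
theorem expo {θ : ℝ} (hθ : 0 < θ) (d k : ℕ) (hd : 1 ≤ d) (hk : 3 ≤ k) (n : ℕ)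
    (G : SimpleGraph (Fin n)) (hB : BallGraph G d) (hM : NoMono G k)
    (hn : Real.exp (θ * k) ≤ n) : θ ^ 4 / (256 * 110 ^ 4) * k ^ 2 ≤ d := by
  have hn0 : (0 : ℝ) < n := lt_of_lt_of_le (Real.exp_pos _) hn
  have h1 : θ * k ≤ Real.log n := by
    rw [Real.le_log_iff_exp_le hn0]
    exact hn
  have h2 := h1.trans (upper_final d k hd hk n G hB hM)
  set m := min d (k ^ 2) with hmdef
  have hk2 : 1 ≤ k ^ 2 := Nat.one_le_pow _ _ (by omega)
  have hm1 : 1 ≤ m := le_min hd hk2
  have hmk : m ≤ k ^ 2 := min_le_right _ _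
  obtain ⟨hl1, hl4, hlexp, hlogk⟩ := ell_facts hm1 hmk hk
  set l : ℝ := Real.log (4 * k ^ 2 / m) with hl
  have hm0 : (0 : ℝ) < m := by exact_mod_cast hm1
  have hk3 : (3 : ℝ) ≤ k := by exact_mod_cast hk
  set X : ℝ := √(m * l) with hX
  have hX0 : 0 ≤ X := Real.sqrt_nonneg _
  have hX2 : X ^ 2 = m * l := Real.sq_sqrt (by positivity)
  have hPsi : Psi d k = Real.log k + X := rfl
  rw [hPsi] at h2
  have hd1 : (1 : ℝ) ≤ d := by exact_mod_cast hd
  have hmd : (m : ℝ) ≤ d := by exact_mod_cast min_le_left d (k ^ 2)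
  rcases le_or_gt (220 * Real.log k) (θ * k) with hc | hc
  · -- large k
    have h3 : θ * k ≤ 220 * X := by linarith
    have h4 : X ^ 2 ≤ 2 * k * √m := by
      rw [hX2]
      have h5 : l ≤ 2 * k / √m := by
        have h6 : 2 * (k : ℝ) / √m = Real.exp (l / 2) := by
          have h7 : (2 * (k : ℝ) / √m) ^ 2 = Real.exp (l / 2) ^ 2 := by
            rw [← Real.exp_nat_mul, div_pow, Real.sq_sqrt hm0.le]
            have : ((2 : ℕ) : ℝ) * (l / 2) = l := by push_cast; ring
            rw [this, hlexp]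
            ring
          exact (pow_left_inj₀ (by positivity) (Real.exp_pos _).le (by norm_num)).1 h7
        rw [h6]
        exact log_le_sqrt_exp
      calc (m : ℝ) * l ≤ m * (2 * k / √m) := mul_le_mul_of_nonneg_left h5 hm0.le
        _ = 2 * k * √m := by
            have h6 : √(m : ℝ) ^ 2 = m := Real.sq_sqrt hm0.le
            have h7 : 0 < √(m : ℝ) := Real.sqrt_pos.2 hm0
            nth_rw 1 [← h6]
            field_simp
    have h5 : (θ * k) ^ 2 ≤ 220 ^ 2 * (2 * k * √m) := by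
      have h6 : (θ * k) ^ 2 ≤ (220 * X) ^ 2 := pow_le_pow_left₀ (by positivity) h3 2
      rw [mul_pow 220 X 2] at h6
      linarith
    have h6 : θ ^ 2 * k ≤ 220 ^ 2 * (2 * √m) := by
      have h7 : (k : ℝ) * (θ ^ 2 * k) ≤ k * (220 ^ 2 * (2 * √m)) := by linarith
      exact le_of_mul_le_mul_left h7 (by linarith)
    have h7 : (θ ^ 2 * k) ^ 2 ≤ (220 ^ 2 * (2 * √m)) ^ 2 := pow_le_pow_left₀ (by positivity) h6 2
    have h8 : (220 ^ 2 * (2 * √(m : ℝ))) ^ 2 = 64 * 110 ^ 4 * m := by
      rw [mul_pow, mul_pow, Real.sq_sqrt hm0.le]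
      norm_num
      ring
    rw [h8] at h7
    rw [div_mul_eq_mul_div, div_le_iff₀ (by norm_num)]
    have h9 : (θ ^ 2 * k) ^ 2 = θ ^ 4 * k ^ 2 := by ring
    rw [h9] at h7
    nlinarith
  · have h3 : Real.log k ≤ 2 * √k := by
      have h4 : Real.log k = 2 * Real.log (√k) := by
        rw [Real.log_sqrt (by linarith)]
        ring
      have h5 := Real.log_le_sub_one_of_pos (show 0 < √(k : ℝ) from Real.sqrt_pos.2 (by linarith))
      linarith
    have h4 : θ * k ≤ 440 * √k := by linarith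
    have h5 : √(k : ℝ) ^ 2 = k := Real.sq_sqrt (by linarith)
    have h6 : 0 < √(k : ℝ) := Real.sqrt_pos.2 (by linarith)
    have h7 : θ * √k ≤ 440 := by
      have h8 : √(k : ℝ) * (θ * √k) ≤ √k * 440 := by
        calc √(k : ℝ) * (θ * √k) = θ * √(k : ℝ) ^ 2 := by ring
          _ = θ * k := by rw [h5]
          _ ≤ _ := by linarith
      exact le_of_mul_le_mul_left h8 h6
    have h8 : (θ * √k) ^ 4 ≤ 440 ^ 4 := pow_le_pow_left₀ (by positivity) h7 4
    have h9 : (θ * √k) ^ 4 = θ ^ 4 * k ^ 2 := by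
      calc (θ * √k) ^ 4 = θ ^ 4 * (√(k : ℝ) ^ 2) ^ 2 := by ring
        _ = _ := by rw [h5]
    rw [h9] at h8
    rw [div_mul_eq_mul_div, div_le_iff₀ (by norm_num)]
    nlinarith

end Pool.Agent.H40.SP
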