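import Mathlib

/-!
# Two-point inequalities for the noise kernel on the cube
-/

namespace Pool.Agent.H40.SP

open Finset

/-- a two-term Hölder inequality -/
theorem holder2 {w f₁ f₂ g₁ g₂ : ℝ} (hw0 : 0 ≤ w) (hw1 : w ≤ 1) (hf₁ : 0 ≤ f₁) (hf₂ : 0 ≤ f₂)
    (hg₁ : 0 ≤ g₁) (hg₂ : 0 ≤ g₂) (hF : 0 < (f₁ + f₂) / 2) (hG : 0 < (g₁ + g₂) / 2) :
    (f₁ ^ w * g₁ ^ (1 - w) + f₂ ^ w * g₂ ^ (1 - w)) / 2 ≤
      ((f₁ + f₂) / 2) ^ w * ((g₁ + g₂) / 2) ^ (1 - w) := by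
  set F := (f₁ + f₂) / 2 with hFd
  set G := (g₁ + g₂) / 2 with hGd
  have hC : 0 < F ^ w * G ^ (1 - w) := by positivity
  have key : ∀ f g : ℝ, 0 ≤ f → 0 ≤ g →
      f ^ w * g ^ (1 - w) ≤ F ^ w * G ^ (1 - w) * (w * (f / F) + (1 - w) * (g / G)) := by
    intro f g hf hg
    have h1 := Real.geom_mean_le_arith_mean2_weighted hw0 (by linarith : 0 ≤ 1 - w)
      (div_nonneg hf hF.le) (div_nonneg hg hG.le) (by ring)
    rw [Real.div_rpow hf hF.le, Real.div_rpow hg hG.le] at h1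
    have h2 := mul_le_mul_of_nonneg_left h1 hC.le
    refine le_trans (le_of_eq ?_) h2
    have h3 : F ^ w ≠ 0 := by positivity
    have h4 : G ^ (1 - w) ≠ 0 := by positivity
    field_simp
  have h1 := key f₁ g₁ hf₁ hg₁
  have h2 := key f₂ g₂ hf₂ hg₂
  have h3 : F ^ w * G ^ (1 - w) * (w * (f₁ / F) + (1 - w) * (g₁ / G)) +
      F ^ w * G ^ (1 - w) * (w * (f₂ / F) + (1 - w) * (g₂ / G)) = 2 * (F ^ w * G ^ (1 - w)) := by
    have h4 : f₁ / F + f₂ / F = 2 := by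
      rw [← add_div, div_eq_iff hF.ne', hFd]
      ring
    have h5 : g₁ / G + g₂ / G = 2 := by
      rw [← add_div, div_eq_iff hG.ne', hGd]
      ring
    calc _ = F ^ w * G ^ (1 - w) * (w * (f₁ / F + f₂ / F) + (1 - w) * (g₁ / G + g₂ / G)) := by ring
      _ = _ := by rw [h4, h5]; ring
  linarith

theorem half_mean {u v : ℝ} (hu : 0 ≤ u) (hv : 0 ≤ v) (hS : 0 < (u + v) / 2) :
    ((√u + √v) / 2) ^ 2 ≤ (u + v) / 2 * (1 - ((u - v) / 2) ^ 2 / ((u + v) / 2) ^ 2 / 4) := by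
  have h1 : √u ^ 2 = u := Real.sq_sqrt hu
  have h2 : √v ^ 2 = v := Real.sq_sqrt hv
  set S := (u + v) / 2 with hSd
  set D := (u - v) / 2 with hDd
  have h3 : (√u * √v) ^ 2 = S ^ 2 - D ^ 2 := by
    rw [mul_pow, h1, h2, hSd, hDd]
    ring
  have h4 : √u * √v ≤ S - D ^ 2 / (2 * S) := by
    have h5 : 2 * S * (√u * √v) ≤ 2 * S * (S - D ^ 2 / (2 * S)) := by
      have h6 : 2 * S * (S - D ^ 2 / (2 * S)) = 2 * S ^ 2 - D ^ 2 := by
        field_simp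
      rw [h6]
      nlinarith [sq_nonneg (√u * √v - S)]
    exact le_of_mul_le_mul_left h5 (by positivity)
  have h5 : S * (1 - D ^ 2 / S ^ 2 / 4) = S - D ^ 2 / (4 * S) := by
    field_simp
  have h6 : ((√u + √v) / 2) ^ 2 = (S + √u * √v) / 2 := by
    have : ((√u + √v) / 2) ^ 2 = (√u ^ 2 + √v ^ 2) / 4 + √u * √v / 2 := by ring
    rw [this, h1, h2, hSd]
    ring
  rw [h5, h6]
  have h7 : D ^ 2 / (2 * S) = 2 * (D ^ 2 / (4 * S)) := by
    field_simp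
    norm_num
  rw [h7] at h4
  linarith

/-- the ratio `D ^ 2 / S ^ 2` is in the unit interval -/
theorem ratio {u v : ℝ} (hu : 0 ≤ u) (hv : 0 ≤ v) (hS : 0 < (u + v) / 2) :
    0 ≤ ((u - v) / 2) ^ 2 / ((u + v) / 2) ^ 2 ∧ ((u - v) / 2) ^ 2 / ((u + v) / 2) ^ 2 ≤ 1 := by
  refine ⟨by positivity, ?_⟩
  rw [div_le_one (by positivity)]
  nlinarith [mul_nonneg hu hv]

theorem bern {x ρ : ℝ} (hx1 : x ≤ 1) (hρ0 : 0 ≤ ρ) (hρ1 : ρ ≤ 1 / 4) :
    (1 - x / 4) ^ (4 * ρ) ≤ 1 - ρ * x := by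
  have h1 := rpow_one_add_le_one_add_mul_self (s := -(x / 4)) (by linarith) (p := 4 * ρ)
    (by linarith) (by linarith)
  have h2 : 1 + -(x / 4) = 1 - x / 4 := by ring
  rw [h2] at h1
  refine h1.trans (le_of_eq (by ring))

/-- reverse one-variable inequality -/
theorem rev_one {ρ a b : ℝ} (hρ0 : 0 ≤ ρ) (hρ1 : ρ ≤ 1 / 8) (ha : 0 ≤ a) (hb : 0 ≤ b) :
    ((a + b) / 2) ^ (1 / (1 - 4 * ρ)) *
        ((a ^ (1 / (1 - 4 * ρ)) + b ^ (1 / (1 - 4 * ρ))) / 2) ≤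
      ((a ^ (1 / (1 - 4 * ρ)) + b ^ (1 / (1 - 4 * ρ))) / 2) ^ 2 -
        ρ * ((a ^ (1 / (1 - 4 * ρ)) - b ^ (1 / (1 - 4 * ρ))) / 2) ^ 2 := by
  set p : ℝ := 1 - 4 * ρ with hp
  have hp0 : 0 < p := by linarith
  have hp1 : p ≤ 1 := by linarith
  set r : ℝ := 1 / p with hr
  have hr1 : 1 ≤ r := by rw [hr, le_div_iff₀ hp0]; linarith
  have hrp : r * p = 1 := by rw [hr]; field_simp
  set u := a ^ r with hu
  set v := b ^ r with hv
  have hu0 : 0 ≤ u := Real.rpow_nonneg ha _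
  have hv0 : 0 ≤ v := Real.rpow_nonneg hb _
  have hau : a = u ^ p := by
    rw [hu, ← Real.rpow_mul ha, hrp, Real.rpow_one]
  have hbv : b = v ^ p := by
    rw [hv, ← Real.rpow_mul hb, hrp, Real.rpow_one]
  rcases (show (0 : ℝ) ≤ (u + v) / 2 by positivity).eq_or_lt with h0 | hS
  · have h1 : u = 0 := by linarith
    have h2 : v = 0 := by linarith
    rw [h1, h2]
    simp
  have hx := ratio hu0 hv0 hS
  have hhalf := half_mean hu0 hv0 hS
  set S := (u + v) / 2 with hSd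
  set D := (u - v) / 2 with hDd
  set x := D ^ 2 / S ^ 2 with hxd
  have hF : 0 < (√u + √v) / 2 := by
    by_contra hcon
    push Not at hcon
    have h1 := Real.sqrt_nonneg u
    have h2 := Real.sqrt_nonneg v
    have h3 : √u = 0 := by linarith
    have h4 : √v = 0 := by linarith
    rw [Real.sqrt_eq_zero hu0] at h3
    rw [Real.sqrt_eq_zero hv0] at h4
    rw [h3, h4] at hSd
    norm_num at hSd
    linarith
  have h1 := holder2 (w := 8 * ρ) (by linarith) (by linarith) (Real.sqrt_nonneg u)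
    (Real.sqrt_nonneg v) hu0 hv0 hF hS
  have hpow : ∀ y : ℝ, 0 ≤ y → √y ^ (8 * ρ) * y ^ (1 - 8 * ρ) = y ^ p := by
    intro y hy
    rw [Real.sqrt_eq_rpow, ← Real.rpow_mul hy, ← Real.rpow_add_of_nonneg hy (by linarith)
      (by linarith)]
    congr 1
    rw [hp]
    ring
  rw [hpow u hu0, hpow v hv0, ← hau, ← hbv] at h1
  have hx4 : 0 ≤ 1 - x / 4 := by linarith [hx.2]
  have h2 : ((√u + √v) / 2) ^ (8 * ρ) ≤ (S * (1 - x / 4)) ^ (4 * ρ) := by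
    have h3 : ((√u + √v) / 2) ^ (8 * ρ) = (((√u + √v) / 2) ^ 2) ^ (4 * ρ) := by
      rw [← Real.rpow_natCast, ← Real.rpow_mul hF.le]
      congr 1
      push_cast
      ring
    rw [h3]
    exact Real.rpow_le_rpow (by positivity) hhalf (by linarith)
  have h3 : (a + b) / 2 ≤ S ^ p * (1 - ρ * x) := by
    refine h1.trans ?_
    calc ((√u + √v) / 2) ^ (8 * ρ) * S ^ (1 - 8 * ρ) ≤
        (S * (1 - x / 4)) ^ (4 * ρ) * S ^ (1 - 8 * ρ) :=
          mul_le_mul_of_nonneg_right h2 (by positivity)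
      _ = S ^ p * (1 - x / 4) ^ (4 * ρ) := by
          rw [Real.mul_rpow hS.le hx4, mul_right_comm, ← Real.rpow_add hS]
          congr 2
          rw [hp]
          ring
      _ ≤ S ^ p * (1 - ρ * x) :=
          mul_le_mul_of_nonneg_left (bern hx.2 hρ0 (by linarith)) (by positivity)
  have hρx : 0 ≤ ρ * x := mul_nonneg hρ0 hx.1
  have hρx1 : ρ * x ≤ 1 := by nlinarith [hx.1, hx.2]
  have h4 : ((a + b) / 2) ^ r ≤ S * (1 - ρ * x) := by
    calc ((a + b) / 2) ^ r ≤ (S ^ p * (1 - ρ * x)) ^ r :=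
          Real.rpow_le_rpow (by positivity) h3 (by linarith)
      _ = S * (1 - ρ * x) ^ r := by
          rw [Real.mul_rpow (by positivity) (by linarith), ← Real.rpow_mul hS.le, mul_comm p r,
            hrp, Real.rpow_one]
      _ ≤ S * (1 - ρ * x) ^ (1 : ℝ) := by
          refine mul_le_mul_of_nonneg_left ?_ hS.le
          exact Real.rpow_le_rpow_of_exponent_ge' (by linarith) (by linarith) (by norm_num) hr1
      _ = S * (1 - ρ * x) := by rw [Real.rpow_one]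
  calc ((a + b) / 2) ^ r * S ≤ S * (1 - ρ * x) * S := mul_le_mul_of_nonneg_right h4 hS.le
    _ = S ^ 2 - ρ * D ^ 2 := by
        rw [hxd]
        field_simp

/-- forward one-variable inequality -/
theorem fwd_one {ρ a b : ℝ} (hρ0 : 0 ≤ ρ) (hρ1 : ρ ≤ 1 / 4) (ha : 0 ≤ a) (hb : 0 ≤ b) :
      ((a ^ (1 / (1 + 4 * ρ)) + b ^ (1 / (1 + 4 * ρ))) / 2) ^ 2 +
        ρ * ((a ^ (1 / (1 + 4 * ρ)) - b ^ (1 / (1 + 4 * ρ))) / 2) ^ 2 ≤
      (((a + b) / 2) ^ (1 / (1 + 4 * ρ))) ^ 2 := by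
  set p : ℝ := 1 + 4 * ρ with hp
  have hp0 : 0 < p := by linarith
  have hp1 : 1 ≤ p := by linarith
  have hp2 : p ≤ 2 := by linarith
  set r : ℝ := 1 / p with hr
  have hr0 : 0 < r := by positivity
  have hrp : r * p = 1 := by rw [hr]; field_simp
  set u := a ^ r with hu
  set v := b ^ r with hv
  have hu0 : 0 ≤ u := Real.rpow_nonneg ha _
  have hv0 : 0 ≤ v := Real.rpow_nonneg hb _
  have hau : a = u ^ p := by
    rw [hu, ← Real.rpow_mul ha, hrp, Real.rpow_one]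
  have hbv : b = v ^ p := by
    rw [hv, ← Real.rpow_mul hb, hrp, Real.rpow_one]
  rcases (show (0 : ℝ) ≤ (u + v) / 2 by positivity).eq_or_lt with h0 | hS
  · have h1 : u = 0 := by linarith
    have h2 : v = 0 := by linarith
    rw [h1, h2]
    simp
    positivity
  have hx := ratio hu0 hv0 hS
  have hhalf := half_mean hu0 hv0 hS
  set S := (u + v) / 2 with hSd
  set D := (u - v) / 2 with hDd
  set x := D ^ 2 / S ^ 2 with hxd
  have hF : 0 < (√u + √v) / 2 := by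
    by_contra hcon
    push Not at hcon
    have h1 := Real.sqrt_nonneg u
    have h2 := Real.sqrt_nonneg v
    have h3 : √u = 0 := by linarith
    have h4 : √v = 0 := by linarith
    rw [Real.sqrt_eq_zero hu0] at h3
    rw [Real.sqrt_eq_zero hv0] at h4
    rw [h3, h4] at hSd
    norm_num at hSd
    linarith
  have hG : 0 < (a + b) / 2 := by
    by_contra hcon
    push Not at hcon
    have h3 : a = 0 := by linarith
    have h4 : b = 0 := by linarith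
    rw [h3, Real.zero_rpow hr0.ne'] at hu
    rw [h4, Real.zero_rpow hr0.ne'] at hv
    rw [hu, hv] at hSd
    norm_num at hSd
    linarith
  set w : ℝ := 8 * ρ / (1 + 8 * ρ) with hw
  have hq : 0 < 1 + 8 * ρ := by linarith
  have hw0 : 0 ≤ w := by positivity
  have hw1 : w ≤ 1 := by
    rw [hw, div_le_one hq]
    linarith
  have hw2 : 1 - w = 1 / (1 + 8 * ρ) := by
    rw [hw]
    field_simp
    ring
  have h1 := holder2 (w := w) hw0 hw1 (Real.sqrt_nonneg u)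
    (Real.sqrt_nonneg v) ha hb hF hG
  have hpow : ∀ y : ℝ, 0 ≤ y → √y ^ w * (y ^ p) ^ (1 - w) = y := by
    intro y hy
    rw [Real.sqrt_eq_rpow, ← Real.rpow_mul hy, ← Real.rpow_mul hy,
      ← Real.rpow_add_of_nonneg hy (by positivity) (by
        have : 0 ≤ 1 - w := by linarith
        positivity)]
    have : 1 / 2 * w + p * (1 - w) = 1 := by
      rw [hw2, hw, hp]
      field_simp
      ring
    rw [this, Real.rpow_one]
  have h2 : √u ^ w * a ^ (1 - w) = u := by rw [hau]; exact hpow u hu0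
  have h3 : √v ^ w * b ^ (1 - w) = v := by rw [hbv]; exact hpow v hv0
  rw [h2, h3] at h1
  set A := (a + b) / 2 with hA
  have h4 : S ^ (1 + 8 * ρ) ≤ ((√u + √v) / 2) ^ (8 * ρ) * A := by
    have h5 := Real.rpow_le_rpow hS.le h1 hq.le
    refine h5.trans (le_of_eq ?_)
    rw [Real.mul_rpow (by positivity) (by positivity), ← Real.rpow_mul hF.le,
      ← Real.rpow_mul hG.le, hw2, hw]
    have e1 : 8 * ρ / (1 + 8 * ρ) * (1 + 8 * ρ) = 8 * ρ := by field_simp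
    have e2 : 1 / (1 + 8 * ρ) * (1 + 8 * ρ) = 1 := by field_simp
    rw [e1, e2, Real.rpow_one]
  have hx4 : 0 ≤ 1 - x / 4 := by linarith [hx.2]
  have h5 : ((√u + √v) / 2) ^ (8 * ρ) ≤ (S * (1 - x / 4)) ^ (4 * ρ) := by
    have h3 : ((√u + √v) / 2) ^ (8 * ρ) = (((√u + √v) / 2) ^ 2) ^ (4 * ρ) := by
      rw [← Real.rpow_natCast, ← Real.rpow_mul hF.le]
      congr 1
      push_cast
      ring
    rw [h3]
    exact Real.rpow_le_rpow (by positivity) hhalf (by linarith)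
  have h6 : S ^ p ≤ (1 - ρ * x) * A := by
    have h7 : S ^ (1 + 8 * ρ) = S ^ (4 * ρ) * S ^ p := by
      rw [← Real.rpow_add hS]
      congr 1
      rw [hp]
      ring
    rw [h7] at h4
    have h8 : S ^ (4 * ρ) * S ^ p ≤ S ^ (4 * ρ) * ((1 - ρ * x) * A) := by
      refine h4.trans ?_
      calc ((√u + √v) / 2) ^ (8 * ρ) * A ≤ (S * (1 - x / 4)) ^ (4 * ρ) * A :=
            mul_le_mul_of_nonneg_right h5 hG.le
        _ = S ^ (4 * ρ) * ((1 - x / 4) ^ (4 * ρ) * A) := by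
            rw [Real.mul_rpow hS.le hx4, mul_assoc]
        _ ≤ _ := by
            refine mul_le_mul_of_nonneg_left ?_ (by positivity)
            exact mul_le_mul_of_nonneg_right (bern hx.2 hρ0 hρ1) hG.le
    exact le_of_mul_le_mul_left h8 (by positivity)
  have hρx : 0 ≤ ρ * x := mul_nonneg hρ0 hx.1
  have hρx1 : ρ * x ≤ 1 / 4 := by nlinarith [hx.1, hx.2]
  set M := A ^ r with hM
  have hM0 : 0 < M := by positivity
  have hMp : M ^ p = A := by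
    rw [hM, ← Real.rpow_mul hG.le, hrp, Real.rpow_one]
  have hSM : S ≤ M := by
    have h7 : S ^ p ≤ M ^ p := by
      rw [hMp]
      refine h6.trans ?_
      nlinarith
    exact (Real.rpow_le_rpow_iff hS.le hM0.le hp0).1 h7
  have h7 : S ^ 2 ≤ (1 - ρ * x) * M ^ 2 := by
    have h8 : (S / M) ^ p ≤ 1 - ρ * x := by
      rw [Real.div_rpow hS.le hM0.le, hMp, div_le_iff₀ hG]
      exact h6
    have h9 : (S / M) ^ (2 : ℝ) ≤ (S / M) ^ p := by
      refine Real.rpow_le_rpow_of_exponent_ge (by positivity) ?_ hp2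
      rw [div_le_one hM0]
      exact hSM
    have h10 := h9.trans h8
    rw [Real.rpow_two, div_pow, div_le_iff₀ (by positivity)] at h10
    exact h10
  have h8 : S ^ 2 + ρ * D ^ 2 = S ^ 2 * (1 + ρ * x) := by
    rw [hxd]
    field_simp
  rw [h8]
  calc S ^ 2 * (1 + ρ * x) ≤ (1 - ρ * x) * M ^ 2 * (1 + ρ * x) :=
        mul_le_mul_of_nonneg_right h7 (by linarith)
    _ = (1 - (ρ * x) ^ 2) * M ^ 2 := by ring
    _ ≤ M ^ 2 := by nlinarith [sq_nonneg (ρ * x), sq_nonneg M, mul_nonneg (sq_nonneg (ρ * x)) (sq_nonneg M)]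

/-- the two-point form -/
noncomputable def tp (ρ a₁ a₀ b₁ b₀ : ℝ) : ℝ :=
  (1 - ρ) * (a₁ * b₁ + a₀ * b₀) + (1 + ρ) * (a₁ * b₀ + a₀ * b₁)

theorem tp_eq (ρ a₁ a₀ b₁ b₀ : ℝ) : tp ρ a₁ a₀ b₁ b₀ =
    4 * ((a₁ + a₀) / 2 * ((b₁ + b₀) / 2) - ρ * ((a₁ - a₀) / 2 * ((b₁ - b₀) / 2))) := by
  unfold tp
  ring

theorem rev_two {ρ a₁ a₀ b₁ b₀ : ℝ} (hρ0 : 0 ≤ ρ) (hρ1 : ρ ≤ 1 / 8) (ha₁ : 0 ≤ a₁) (ha₀ : 0 ≤ a₀)
    (hb₁ : 0 ≤ b₁) (hb₀ : 0 ≤ b₀) :
    4 * ((a₁ + a₀) / 2 * ((b₁ + b₀) / 2)) ^ (1 / (1 - 4 * ρ)) ≤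
      tp ρ (a₁ ^ (1 / (1 - 4 * ρ))) (a₀ ^ (1 / (1 - 4 * ρ))) (b₁ ^ (1 / (1 - 4 * ρ)))
        (b₀ ^ (1 / (1 - 4 * ρ))) := by
  rw [tp_eq]
  refine mul_le_mul_of_nonneg_left ?_ (by norm_num)
  have h1 := rev_one hρ0 hρ1 ha₁ ha₀
  have h2 := rev_one hρ0 hρ1 hb₁ hb₀
  rw [Real.mul_rpow (by positivity) (by positivity)]
  set r : ℝ := 1 / (1 - 4 * ρ) with hr
  have hr0 : 0 < r := by
    rw [hr]
    have : 0 < 1 - 4 * ρ := by linarith
    positivity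
  have hu1 : 0 ≤ a₁ ^ r := Real.rpow_nonneg ha₁ _
  have hu0 : 0 ≤ a₀ ^ r := Real.rpow_nonneg ha₀ _
  have hv1 : 0 ≤ b₁ ^ r := Real.rpow_nonneg hb₁ _
  have hv0 : 0 ≤ b₀ ^ r := Real.rpow_nonneg hb₀ _
  set M := ((a₁ + a₀) / 2) ^ r with hM
  set M' := ((b₁ + b₀) / 2) ^ r with hM'
  have hM0 : 0 ≤ M := Real.rpow_nonneg (by positivity) _
  have hM'0 : 0 ≤ M' := Real.rpow_nonneg (by positivity) _
  -- degenerate cases
  have hdeg : ∀ a b : ℝ, 0 ≤ a → 0 ≤ b → (a ^ r + b ^ r) / 2 = 0 →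
      ((a + b) / 2) ^ r = 0 ∧ (a ^ r - b ^ r) / 2 = 0 := by
    intro a b ha hb hab
    have e1 := Real.rpow_nonneg ha r
    have e2 := Real.rpow_nonneg hb r
    have e3 : a ^ r = 0 := by linarith
    have e4 : b ^ r = 0 := by linarith
    have e5 : a = 0 := ((Real.rpow_eq_zero ha hr0.ne').1 e3)
    have e6 : b = 0 := ((Real.rpow_eq_zero hb hr0.ne').1 e4)
    rw [e5, e6]
    refine ⟨?_, by simp⟩
    rw [add_zero, zero_div, Real.zero_rpow hr0.ne']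
  rcases (show (0 : ℝ) ≤ (a₁ ^ r + a₀ ^ r) / 2 by positivity).eq_or_lt with h0 | hS
  · obtain ⟨e1, e2⟩ := hdeg a₁ a₀ ha₁ ha₀ h0.symm
    rw [← h0, e2, hM, e1]
    simp
  rcases (show (0 : ℝ) ≤ (b₁ ^ r + b₀ ^ r) / 2 by positivity).eq_or_lt with h0 | hS'
  · obtain ⟨e1, e2⟩ := hdeg b₁ b₀ hb₁ hb₀ h0.symm
    rw [← h0, e2, hM', e1]
    simp
  have hDS : |(a₁ ^ r - a₀ ^ r) / 2| ≤ (a₁ ^ r + a₀ ^ r) / 2 := by
    rw [abs_le]
    constructor <;> linarith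
  have hDS' : |(b₁ ^ r - b₀ ^ r) / 2| ≤ (b₁ ^ r + b₀ ^ r) / 2 := by
    rw [abs_le]
    constructor <;> linarith
  set S := (a₁ ^ r + a₀ ^ r) / 2 with hSd
  set D := (a₁ ^ r - a₀ ^ r) / 2 with hDd
  set S' := (b₁ ^ r + b₀ ^ r) / 2 with hSd'
  set D' := (b₁ ^ r - b₀ ^ r) / 2 with hDd'
  have h3 : (M * S) * (M' * S') ≤ (S ^ 2 - ρ * D ^ 2) * (S' ^ 2 - ρ * D' ^ 2) :=
    mul_le_mul h1 h2 (by positivity) (le_trans (by positivity) h1)
  have hprod : |D * D'| ≤ S * S' := by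
    rw [abs_mul]
    exact mul_le_mul hDS hDS' (abs_nonneg _) hS.le
  have h4 : (S ^ 2 - ρ * D ^ 2) * (S' ^ 2 - ρ * D' ^ 2) ≤ (S * S') * (S * S' - ρ * (D * D')) := by
    have e1 : (D * D') ^ 2 ≤ |D * D'| * (S * S') := by
      rw [← sq_abs, sq]
      exact mul_le_mul_of_nonneg_left hprod (abs_nonneg _)
    have e2 : D * D' ≤ |D * D'| := le_abs_self _
    have e3 : 2 * (|D * D'| * (S * S')) ≤ (D * S') ^ 2 + (D' * S) ^ 2 := by
      have e4 : |D * D'| * (S * S') = |D * S'| * |D' * S| := by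
        rw [abs_mul, abs_mul, abs_mul, abs_of_pos hS, abs_of_pos hS']
        ring
      rw [e4, ← sq_abs (D * S'), ← sq_abs (D' * S)]
      nlinarith [sq_nonneg (|D * S'| - |D' * S|)]
    have e5 : 0 ≤ |D * D'| * (S * S') := by positivity
    have e6 : ρ * (D * D') ^ 2 + S * S' * (D * D') ≤ (D * S') ^ 2 + (D' * S) ^ 2 := by
      have e7 : ρ * (D * D') ^ 2 ≤ 1 * (|D * D'| * (S * S')) :=
        mul_le_mul (by linarith) e1 (sq_nonneg _) (by norm_num)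
      have e8 : S * S' * (D * D') ≤ S * S' * |D * D'| :=
        mul_le_mul_of_nonneg_left e2 (by positivity)
      nlinarith
    nlinarith [mul_le_mul_of_nonneg_left e6 hρ0]
  have h5 : (S * S') * (M * M') ≤ (S * S') * (S * S' - ρ * (D * D')) := by
    calc (S * S') * (M * M') = (M * S) * (M' * S') := by ring
      _ ≤ _ := h3.trans h4
  exact le_of_mul_le_mul_left h5 (by positivity)

theorem fwd_two {ρ a₁ a₀ b₁ b₀ : ℝ} (hρ0 : 0 ≤ ρ) (hρ1 : ρ ≤ 1 / 4) (ha₁ : 0 ≤ a₁) (ha₀ : 0 ≤ a₀)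
    (hb₁ : 0 ≤ b₁) (hb₀ : 0 ≤ b₀) :
    tp ρ (a₁ ^ (1 / (1 + 4 * ρ))) (a₀ ^ (1 / (1 + 4 * ρ))) (b₁ ^ (1 / (1 + 4 * ρ)))
        (b₀ ^ (1 / (1 + 4 * ρ))) ≤
      4 * ((a₁ + a₀) / 2 * ((b₁ + b₀) / 2)) ^ (1 / (1 + 4 * ρ)) := by
  rw [tp_eq]
  refine mul_le_mul_of_nonneg_left ?_ (by norm_num)
  have h1 := fwd_one hρ0 hρ1 ha₁ ha₀
  have h2 := fwd_one hρ0 hρ1 hb₁ hb₀
  rw [Real.mul_rpow (by positivity) (by positivity)]
  set r : ℝ := 1 / (1 + 4 * ρ) with hr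
  set M := ((a₁ + a₀) / 2) ^ r with hM
  set M' := ((b₁ + b₀) / 2) ^ r with hM'
  have hM0 : 0 ≤ M := Real.rpow_nonneg (by positivity) _
  have hM'0 : 0 ≤ M' := Real.rpow_nonneg (by positivity) _
  set S := (a₁ ^ r + a₀ ^ r) / 2 with hSd
  set D := (a₁ ^ r - a₀ ^ r) / 2 with hDd
  set S' := (b₁ ^ r + b₀ ^ r) / 2 with hSd'
  set D' := (b₁ ^ r - b₀ ^ r) / 2 with hDd'
  have h3 : (S ^ 2 + ρ * D ^ 2) * (S' ^ 2 + ρ * D' ^ 2) ≤ M ^ 2 * M' ^ 2 :=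
    mul_le_mul h1 h2 (by positivity) (by positivity)
  have h4 : (S * S' - ρ * (D * D')) ^ 2 ≤ (M * M') ^ 2 := by
    rw [mul_pow M M' 2]
    refine le_trans ?_ h3
    nlinarith [mul_nonneg hρ0 (sq_nonneg (S * D' + S' * D))]
  exact le_of_sq_le_sq h4 (by positivity)

end Pool.Agent.H40.SP
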