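import Pool.Agent.H40.SP.TP

/-!
# Tensorization and supersaturation on the cube
-/

namespace Pool.Agent.H40.SP

open Finset

/-- the sign of a bit -/
noncomputable def sg (b : Bool) : ℝ := if b then 1 else -1

theorem sg_mul_self (b : Bool) : sg b * sg b = 1 := by
  cases b <;> simp [sg]

theorem sg_cases (b : Bool) : sg b = 1 ∨ sg b = -1 := by
  cases b <;> simp [sg]

theorem sgsg_cases (b c : Bool) : sg b * sg c = 1 ∨ sg b * sg c = -1 := by
  cases b <;> cases c <;> simp [sg]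

/-- the inner product of two sign vectors -/
noncomputable def ip {d : ℕ} (x y : Fin d → Bool) : ℝ := ∑ i, sg (x i) * sg (y i)

/-- the noise kernel -/
noncomputable def ker (ρ : ℝ) {d : ℕ} (x y : Fin d → Bool) : ℝ :=
  ∏ i, (1 - ρ * (sg (x i) * sg (y i)))

theorem ker_factor_nonneg {ρ : ℝ} (h0 : 0 ≤ ρ) (h1 : ρ ≤ 1) (b c : Bool) :
    0 ≤ 1 - ρ * (sg b * sg c) := by
  rcases sgsg_cases b c with h | h <;> rw [h] <;> linarith

theorem ker_nonneg {ρ : ℝ} (h0 : 0 ≤ ρ) (h1 : ρ ≤ 1) {d : ℕ} (x y : Fin d → Bool) :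
    0 ≤ ker ρ x y := prod_nonneg (fun _ _ => ker_factor_nonneg h0 h1 _ _)

theorem sum_cons {d : ℕ} (F : (Fin (d + 1) → Bool) → ℝ) :
    ∑ x, F x = ∑ b : Bool, ∑ x' : Fin d → Bool, F (Fin.cons b x') := by
  rw [← (Fin.consEquiv (fun _ : Fin (d + 1) => Bool)).sum_comp, Fintype.sum_prod_type]
  rfl

theorem ker_cons (ρ : ℝ) {d : ℕ} (b c : Bool) (x y : Fin d → Bool) :
    ker ρ (Fin.cons b x : Fin (d + 1) → Bool) (Fin.cons c y) =
      (1 - ρ * (sg b * sg c)) * ker ρ x y := by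
  unfold ker
  rw [Fin.prod_univ_succ]
  simp

/-- the form -/
noncomputable def T (ρ r : ℝ) {d : ℕ} (f g : (Fin d → Bool) → ℝ) : ℝ :=
  ∑ x, ∑ y, ker ρ x y * (f x ^ r * g y ^ r)

theorem T_succ (ρ r : ℝ) {d : ℕ} (f g : (Fin (d + 1) → Bool) → ℝ) :
    T ρ r f g = (1 - ρ) * (T ρ r (fun x => f (Fin.cons true x)) (fun x => g (Fin.cons true x)) +
      T ρ r (fun x => f (Fin.cons false x)) (fun x => g (Fin.cons false x))) +
      (1 + ρ) * (T ρ r (fun x => f (Fin.cons true x)) (fun x => g (Fin.cons false x)) +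
      T ρ r (fun x => f (Fin.cons false x)) (fun x => g (Fin.cons true x))) := by
  have h1 : ∀ b c : Bool, ∑ x' : Fin d → Bool, ∑ y' : Fin d → Bool,
      ker ρ (Fin.cons b x' : Fin (d + 1) → Bool) (Fin.cons c y') *
        (f (Fin.cons b x') ^ r * g (Fin.cons c y') ^ r) =
      (1 - ρ * (sg b * sg c)) *
        T ρ r (fun x => f (Fin.cons b x)) (fun x => g (Fin.cons c x)) := by
    intro b c
    unfold T
    rw [mul_sum]
    refine sum_congr rfl (fun x _ => ?_)
    rw [mul_sum]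
    refine sum_congr rfl (fun y _ => ?_)
    rw [ker_cons]
    ring
  have h2 : T ρ r f g = ∑ b : Bool, ∑ c : Bool, ∑ x' : Fin d → Bool, ∑ y' : Fin d → Bool,
      ker ρ (Fin.cons b x' : Fin (d + 1) → Bool) (Fin.cons c y') *
        (f (Fin.cons b x') ^ r * g (Fin.cons c y') ^ r) := by
    unfold T
    rw [sum_cons]
    refine sum_congr rfl (fun b _ => ?_)
    rw [sum_comm]
    rw [sum_cons]
    refine sum_congr rfl (fun c _ => ?_)
    rw [sum_comm]
  rw [h2]
  simp_rw [h1]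
  rw [Fintype.sum_bool, Fintype.sum_bool, Fintype.sum_bool]
  simp only [sg, if_true, Bool.false_eq_true, if_false]
  ring

theorem T_zero (ρ r : ℝ) (f g : (Fin 0 → Bool) → ℝ) (z : Fin 0 → Bool) :
    T ρ r f g = f z ^ r * g z ^ r := by
  unfold T ker
  rw [Fintype.sum_subsingleton _ z, Fintype.sum_subsingleton _ z, univ_eq_empty, prod_empty,
    one_mul]

theorem rev_tensor {ρ : ℝ} (hρ0 : 0 ≤ ρ) (hρ1 : ρ ≤ 1 / 8) : ∀ (d : ℕ)
    (f g : (Fin d → Bool) → ℝ), (∀ x, 0 ≤ f x) → (∀ x, 0 ≤ g x) →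
    4 ^ d * ((∑ x, f x) / 2 ^ d * ((∑ x, g x) / 2 ^ d)) ^ (1 / (1 - 4 * ρ)) ≤
      T ρ (1 / (1 - 4 * ρ)) f g := by
  intro d
  induction d with
  | zero =>
    intro f g hf hg
    rw [T_zero ρ _ f g (fun _ => true), Fintype.sum_subsingleton _ (fun _ => true),
      Fintype.sum_subsingleton _ (fun _ => true), pow_zero, pow_zero, one_mul, div_one, div_one,
      Real.mul_rpow (hf _) (hg _)]
  | succ d ih =>
    intro f g hf hg
    rw [T_succ]
    set r : ℝ := 1 / (1 - 4 * ρ) with hr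
    set a : Bool → ℝ := fun b => (∑ x : Fin d → Bool, f (Fin.cons b x)) / 2 ^ d with ha
    set c : Bool → ℝ := fun b => (∑ x : Fin d → Bool, g (Fin.cons b x)) / 2 ^ d with hc
    have ha0 : ∀ b, 0 ≤ a b := fun b => div_nonneg (sum_nonneg (fun x _ => hf _)) (by positivity)
    have hc0 : ∀ b, 0 ≤ c b := fun b => div_nonneg (sum_nonneg (fun x _ => hg _)) (by positivity)
    have h1 : ∀ b e, 4 ^ d * (a b ^ r * c e ^ r) ≤
        T ρ r (fun x => f (Fin.cons b x)) (fun x => g (Fin.cons e x)) := by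
      intro b e
      rw [← Real.mul_rpow (ha0 b) (hc0 e)]
      exact ih _ _ (fun x => hf _) (fun x => hg _)
    have h2 := rev_two hρ0 hρ1 (ha0 true) (ha0 false) (hc0 true) (hc0 false)
    rw [← hr] at h2
    unfold tp at h2
    have e1 : (∑ x, f x) / 2 ^ (d + 1) = (a true + a false) / 2 := by
      rw [sum_cons, Fintype.sum_bool, ha, pow_succ]
      field_simp
    have e2 : (∑ x, g x) / 2 ^ (d + 1) = (c true + c false) / 2 := by
      rw [sum_cons, Fintype.sum_bool, hc, pow_succ]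
      field_simp
    rw [e1, e2]
    calc 4 ^ (d + 1) * ((a true + a false) / 2 * ((c true + c false) / 2)) ^ r
        = 4 ^ d * (4 * ((a true + a false) / 2 * ((c true + c false) / 2)) ^ r) := by ring
      _ ≤ 4 ^ d * ((1 - ρ) * (a true ^ r * c true ^ r + a false ^ r * c false ^ r) +
          (1 + ρ) * (a true ^ r * c false ^ r + a false ^ r * c true ^ r)) :=
          mul_le_mul_of_nonneg_left h2 (by positivity)
      _ = (1 - ρ) * (4 ^ d * (a true ^ r * c true ^ r) + 4 ^ d * (a false ^ r * c false ^ r)) +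
          (1 + ρ) * (4 ^ d * (a true ^ r * c false ^ r) + 4 ^ d * (a false ^ r * c true ^ r)) := by
          ring
      _ ≤ _ := add_le_add
          (mul_le_mul_of_nonneg_left (add_le_add (h1 _ _) (h1 _ _)) (by linarith))
          (mul_le_mul_of_nonneg_left (add_le_add (h1 _ _) (h1 _ _)) (by linarith))

theorem fwd_tensor {ρ : ℝ} (hρ0 : 0 ≤ ρ) (hρ1 : ρ ≤ 1 / 4) : ∀ (d : ℕ)
    (f g : (Fin d → Bool) → ℝ), (∀ x, 0 ≤ f x) → (∀ x, 0 ≤ g x) →
    T ρ (1 / (1 + 4 * ρ)) f g ≤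
    4 ^ d * ((∑ x, f x) / 2 ^ d * ((∑ x, g x) / 2 ^ d)) ^ (1 / (1 + 4 * ρ)) := by
  intro d
  induction d with
  | zero =>
    intro f g hf hg
    rw [T_zero ρ _ f g (fun _ => true), Fintype.sum_subsingleton _ (fun _ => true),
      Fintype.sum_subsingleton _ (fun _ => true), pow_zero, pow_zero, one_mul, div_one, div_one,
      Real.mul_rpow (hf _) (hg _)]
  | succ d ih =>
    intro f g hf hg
    rw [T_succ]
    set r : ℝ := 1 / (1 + 4 * ρ) with hr
    set a : Bool → ℝ := fun b => (∑ x : Fin d → Bool, f (Fin.cons b x)) / 2 ^ d with ha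
    set c : Bool → ℝ := fun b => (∑ x : Fin d → Bool, g (Fin.cons b x)) / 2 ^ d with hc
    have ha0 : ∀ b, 0 ≤ a b := fun b => div_nonneg (sum_nonneg (fun x _ => hf _)) (by positivity)
    have hc0 : ∀ b, 0 ≤ c b := fun b => div_nonneg (sum_nonneg (fun x _ => hg _)) (by positivity)
    have h1 : ∀ b e, T ρ r (fun x => f (Fin.cons b x)) (fun x => g (Fin.cons e x)) ≤
        4 ^ d * (a b ^ r * c e ^ r) := by
      intro b e
      rw [← Real.mul_rpow (ha0 b) (hc0 e)]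
      exact ih _ _ (fun x => hf _) (fun x => hg _)
    have h2 := fwd_two hρ0 hρ1 (ha0 true) (ha0 false) (hc0 true) (hc0 false)
    rw [← hr] at h2
    unfold tp at h2
    have e1 : (∑ x, f x) / 2 ^ (d + 1) = (a true + a false) / 2 := by
      rw [sum_cons, Fintype.sum_bool, ha, pow_succ]
      field_simp
    have e2 : (∑ x, g x) / 2 ^ (d + 1) = (c true + c false) / 2 := by
      rw [sum_cons, Fintype.sum_bool, hc, pow_succ]
      field_simp
    rw [e1, e2]
    calc _ ≤ (1 - ρ) * (4 ^ d * (a true ^ r * c true ^ r) + 4 ^ d * (a false ^ r * c false ^ r)) +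
          (1 + ρ) * (4 ^ d * (a true ^ r * c false ^ r) + 4 ^ d * (a false ^ r * c true ^ r)) :=
          add_le_add
          (mul_le_mul_of_nonneg_left (add_le_add (h1 _ _) (h1 _ _)) (by linarith))
          (mul_le_mul_of_nonneg_left (add_le_add (h1 _ _) (h1 _ _)) (by linarith))
      _ = 4 ^ d * ((1 - ρ) * (a true ^ r * c true ^ r + a false ^ r * c false ^ r) +
          (1 + ρ) * (a true ^ r * c false ^ r + a false ^ r * c true ^ r)) := by ring
      _ ≤ 4 ^ d * (4 * ((a true + a false) / 2 * ((c true + c false) / 2)) ^ r) :=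
          mul_le_mul_of_nonneg_left h2 (by positivity)
      _ = 4 ^ (d + 1) * ((a true + a false) / 2 * ((c true + c false) / 2)) ^ r := by ring

open Classical in
theorem T_ind (ρ : ℝ) {r : ℝ} (hr : 0 < r) {d : ℕ} (A B : Finset (Fin d → Bool)) :
    T ρ r (fun x => if x ∈ A then 1 else 0) (fun x => if x ∈ B then 1 else 0) =
      ∑ x ∈ A, ∑ y ∈ B, ker ρ x y := by
  unfold T
  have h1 : ∀ (S : Finset (Fin d → Bool)) x, (if x ∈ S then (1 : ℝ) else 0) ^ r =
      if x ∈ S then (1 : ℝ) else 0 := by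
    intro S x
    by_cases h : x ∈ S
    · rw [if_pos h, Real.one_rpow]
    · rw [if_neg h, Real.zero_rpow hr.ne']
  simp_rw [h1]
  rw [← sum_filter_add_sum_filter_not univ (fun x => x ∈ A)]
  have h2 : ∑ x with ¬ x ∈ A, ∑ y, ker ρ x y * ((if x ∈ A then (1 : ℝ) else 0) *
      (if y ∈ B then 1 else 0)) = 0 := by
    refine sum_eq_zero (fun x hx => sum_eq_zero (fun y _ => ?_))
    rw [if_neg (mem_filter.1 hx).2]
    ring
  rw [h2, add_zero, filter_mem_eq_inter, univ_inter]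
  refine sum_congr rfl (fun x hx => ?_)
  rw [if_pos hx]
  simp_rw [one_mul, mul_ite, mul_one, mul_zero]
  rw [sum_ite_mem, univ_inter]

theorem rev_sets {ρ : ℝ} (hρ0 : 0 ≤ ρ) (hρ1 : ρ ≤ 1 / 8) {d : ℕ} (A B : Finset (Fin d → Bool)) :
    4 ^ d * ((A.card : ℝ) / 2 ^ d * (B.card / 2 ^ d)) ^ (1 / (1 - 4 * ρ)) ≤
      ∑ x ∈ A, ∑ y ∈ B, ker ρ x y := by
  classical
  have h1 := rev_tensor hρ0 hρ1 d (fun x => if x ∈ A then 1 else 0)
    (fun x => if x ∈ B then 1 else 0) (fun x => by positivity) (fun x => by positivity)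
  rw [T_ind ρ (by
    have : 0 < 1 - 4 * ρ := by linarith
    positivity)] at h1
  simpa using h1

theorem fwd_sets {ρ : ℝ} (hρ0 : 0 ≤ ρ) (hρ1 : ρ ≤ 1 / 4) {d : ℕ} (A B : Finset (Fin d → Bool)) :
    ∑ x ∈ A, ∑ y ∈ B, ker ρ x y ≤
    4 ^ d * ((A.card : ℝ) / 2 ^ d * (B.card / 2 ^ d)) ^ (1 / (1 + 4 * ρ)) := by
  classical
  have h1 := fwd_tensor hρ0 hρ1 d (fun x => if x ∈ A then 1 else 0)
    (fun x => if x ∈ B then 1 else 0) (fun x => by positivity) (fun x => by positivity)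
  rw [T_ind ρ (by positivity)] at h1
  simpa using h1

/-- the kernel is small on pairs with nonnegative inner product -/
theorem ker_le {ρ : ℝ} (hρ0 : 0 ≤ ρ) (hρ1 : ρ ≤ 1 / 2) {d : ℕ} (x y : Fin d → Bool)
    (h : 0 ≤ ip x y) : ker ρ x y ≤ Real.exp (-(ρ ^ 2 * d / 2)) := by
  set α : ℝ := (Real.log (1 - ρ) + Real.log (1 + ρ)) / 2 with hα
  set β : ℝ := (Real.log (1 - ρ) - Real.log (1 + ρ)) / 2 with hβ
  have h1 : ∀ b c, 1 - ρ * (sg b * sg c) = Real.exp (α + β * (sg b * sg c)) := by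
    intro b c
    rcases sgsg_cases b c with h | h
    · rw [h]
      have : α + β * 1 = Real.log (1 - ρ) := by rw [hα, hβ]; ring
      rw [this, Real.exp_log (by linarith)]
      ring
    · rw [h]
      have : α + β * (-1) = Real.log (1 + ρ) := by rw [hα, hβ]; ring
      rw [this, Real.exp_log (by linarith)]
      ring
  have hβ0 : β ≤ 0 := by
    have := Real.log_le_log (show 0 < 1 - ρ by linarith) (show 1 - ρ ≤ 1 + ρ by linarith)
    rw [hβ]
    linarith
  have hα0 : α ≤ -(ρ ^ 2 / 2) := by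
    have h2 : Real.log (1 - ρ) + Real.log (1 + ρ) = Real.log (1 - ρ ^ 2) := by
      rw [← Real.log_mul (by linarith) (by linarith)]
      congr 1
      ring
    have h3 := Real.log_le_sub_one_of_pos (show 0 < 1 - ρ ^ 2 by nlinarith)
    rw [hα, h2]
    linarith
  unfold ker
  simp_rw [h1]
  rw [← Real.exp_sum, Real.exp_le_exp, sum_add_distrib, sum_const, ← mul_sum, card_univ,
    Fintype.card_fin, nsmul_eq_mul]
  have h4 : β * ∑ i, sg (x i) * sg (y i) ≤ 0 := mul_nonpos_of_nonpos_of_nonneg hβ0 h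
  have h5 : (d : ℝ) * α ≤ d * (-(ρ ^ 2 / 2)) := mul_le_mul_of_nonneg_left hα0 (Nat.cast_nonneg _)
  linarith

theorem ker_sq (ρ : ℝ) {d : ℕ} (x y : Fin d → Bool) :
    ker ρ x y ^ 2 = (1 + ρ ^ 2) ^ d * ker (2 * ρ / (1 + ρ ^ 2)) x y := by
  unfold ker
  have h1 : (1 + ρ ^ 2) ^ d = ∏ _i : Fin d, (1 + ρ ^ 2) := by
    rw [prod_const, card_univ, Fintype.card_fin]
  rw [h1, ← prod_pow, ← prod_mul_distrib]
  refine prod_congr rfl (fun i _ => ?_)
  have h2 : (sg (x i) * sg (y i)) ^ 2 = 1 := by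
    rcases sgsg_cases (x i) (y i) with h | h <;> rw [h] <;> norm_num
  have h3 : (1 + ρ ^ 2) * (1 - 2 * ρ / (1 + ρ ^ 2) * (sg (x i) * sg (y i))) =
      (1 + ρ ^ 2) - 2 * ρ * (sg (x i) * sg (y i)) := by
    field_simp
  rw [h3]
  have h4 : (1 - ρ * (sg (x i) * sg (y i))) ^ 2 =
      1 - 2 * ρ * (sg (x i) * sg (y i)) + ρ ^ 2 * (sg (x i) * sg (y i)) ^ 2 := by ring
  rw [h4, h2]
  ring

end Pool.Agent.H40.SP
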